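import Pool.Agent.Run7.h365.PF.Bt

/-!
# The order of the pole for products of Fermat varieties
-/

set_option autoImplicit false
set_option linter.unusedSectionVars false

namespace Run7.h365.PF

open Finset NumberField IsDedekindDomain Filter Polynomial Run7.h365.FV
open Pool.Agent.W353.EF (cone IsFrobenius IsEulerSystem)
open Pool.Agent.N172.HS (IsHecke)
open Pool.Agent.Y149.Ord (HasOrder)
open Pool.Agent.Y772.NZ (one one_ne)
open Run7.h365.CM (IsTriv norm_v_pos)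
open Run7.h365.CM.T (isHecke_one eventually_coprime triv_of_ae)

variable {r : ℕ} {nn mm : Fin r → ℕ} {L : ℕ} {v : HeightOneSpectrum (𝓞 ℚ)}

/-! ### the number of the eigenvalues -/

theorem card_msum {ι : Type} (s : Finset ι) (F : ι → Multiset ℂ) :
    Multiset.card (∑ x ∈ s, F x) = ∑ x ∈ s, Multiset.card (F x) :=
  map_sum Multiset.cardHom F s

open Classical in
/-- the number of the eigenvalues -/
noncomputable def nev (nn mm : Fin r → ℕ) (L : ℕ) (A : Finset (Fin r)) : ℕ :=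
  if hA : A.Nonempty then
    ∑ M : D L, ∑ ω : Orb (nA nn A) M.1, if (fam nn mm hA).P (rep ω).1 then M.1.totient else 0
  else 1

theorem card_ev (hv : (Ideal.absNorm v.asIdeal).Coprime L) (A : Finset (Fin r)) :
    Multiset.card (ev nn mm L v A) = nev nn mm L A := by
  classical
  unfold ev nev
  by_cases hA : A.Nonempty
  · rw [dif_pos hA, dif_pos hA, card_msum]
    refine sum_congr rfl fun M _ => ?_
    rw [card_msum]
    refine sum_congr rfl fun ω _ => ?_
    by_cases hP : (fam nn mm hA).P (rep ω).1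
    · rw [if_pos hP, if_pos hP, card_msum,
        sum_congr rfl (g := fun _ => fo v M.1) (fun w _ => card_rts), sum_const, card_univ,
        smul_eq_mul]
      exact card_above (coprime_level hv M)
    · rw [if_neg hP, if_neg hP]
      rfl
  · rw [dif_neg hA, dif_neg hA]
    rfl

/-- the Betti numbers -/
noncomputable def nbt (nn mm : Fin r → ℕ) (L k : ℕ) : ℕ :=
  ∑ c ∈ univ.filter (fun c : Sy nn => dg c = k), nev nn mm L (pr c)

theorem card_bt (hv : (Ideal.absNorm v.asIdeal).Coprime L) (k : ℕ) :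
    Multiset.card (bt nn mm L v k) = nbt nn mm L k := by
  unfold bt nbt
  rw [card_msum]
  refine sum_congr rfl fun c _ => ?_
  rw [Multiset.card_map, card_ev hv]

section euler

variable (h1 : ∀ i, 1 ≤ nn i) (hL : 0 < L) (hm : ∀ i, 0 < mm i) (hmL : ∀ i, mm i ∣ L) {n : ℕ}
  {eqs : Set (MvPolynomial (Fin n) (𝓞 ℚ))} (hX : IsProd nn mm eqs)

include h1 hL hm hmL hX

theorem exists_euler_prod (k : ℕ) : ∃ B : HeightOneSpectrum (𝓞 ℚ) → ℂ[X],
    IsEulerSystem (K := ℚ) (F := ℚ) eqs (∑ i, (nn i - 1)) k (nbt nn mm L k) B := by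
  apply exists_euler_of
  filter_upwards [isFrobenius_prod h1 hL hm hmL hX, eventually_cop hL] with v hF hv
  obtain ⟨α, hα⟩ := exists_enum (bt nn mm L v k) (card_bt hv k)
  exact ⟨α, hF k hα⟩

theorem euler_eval_prod {k : ℕ} (hk : k ≤ 2 * ∑ i, (nn i - 1)) {N : ℕ}
    {B : HeightOneSpectrum (𝓞 ℚ) → ℂ[X]}
    (hB : IsEulerSystem (K := ℚ) (F := ℚ) eqs (∑ i, (nn i - 1)) k N B) :
    ∀ᶠ v : HeightOneSpectrum (𝓞 ℚ) in cofinite, ∀ z : ℂ, (B v).eval z =
      ((bt nn mm L v k).map fun x => 1 - x * z).prod := by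
  filter_upwards [hB.1, isFrobenius_prod h1 hL hm hmL hX, eventually_cop hL] with v h2 hF hv z
  obtain ⟨α, hα, hBv⟩ := h2
  obtain ⟨α', hα'⟩ := exists_enum (bt nn mm L v k) (card_bt hv k)
  have h4 := Pool.Agent.W353.PV.Eig.unique' (K := ℚ) (F := ℚ) (X := eqs) hk hα (hF k hα')
  rw [hBv, hα', ← h4, Multiset.map_map]
  rfl

end euler

/-! ### the order -/

/-- the symbols of degree `k` with primitive cohomology -/
abbrev S1 (nn : Fin r → ℕ) (k : ℕ) : Type := {c : Sy nn // dg c = k ∧ (pr c).Nonempty}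

/-- the symbols of degree `k` without primitive cohomology -/
abbrev S0 (nn : Fin r → ℕ) (k : ℕ) : Type := {c : Sy nn // dg c = k ∧ ¬ (pr c).Nonempty}

/-- the orbits -/
abbrev O1 (nn mm : Fin r → ℕ) {k : ℕ} (c : S1 nn k) (M : ℕ) : Type :=
  {ω : Orb (nA nn (pr c.1)) M // (fam nn mm c.2.2).P (rep ω).1}

noncomputable instance {k M : ℕ} [NeZero M] (c : S1 nn k) : Fintype (O1 nn mm c M) :=
  Fintype.ofFinite _

noncomputable instance {k : ℕ} : Fintype (S1 nn k) := Fintype.ofFinite _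

noncomputable instance {k : ℕ} : Fintype (S0 nn k) := Fintype.ofFinite _

/-- the index set of the factors -/
abbrev JI (nn mm : Fin r → ℕ) (L k : ℕ) : Type :=
  (Σ c : S1 nn k, Σ M : D L, O1 nn mm c M.1) ⊕ S0 nn k

/-- the level of a factor -/
def lv {k : ℕ} : JI nn mm L k → ℕ
  | Sum.inl x => x.2.1.1
  | Sum.inr _ => 1

instance {k : ℕ} (x : JI nn mm L k) : NeZero (lv x) :=
  match x with
  | Sum.inl x => inferInstanceAs (NeZero x.2.1.1)
  | Sum.inr _ => ⟨one_ne_zero⟩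

/-- the Hecke character of a factor -/
noncomputable def psiI {k : ℕ} (x : JI nn mm L k) : Ideal (𝓞 (LL (lv x))) →*₀ ℂ :=
  match x with
  | Sum.inl x => psi x.2.1.1 (ff x.2.1.1) (rep x.2.2.1).1 ((nA nn (pr x.1.1) + 1) / 2)
  | Sum.inr _ => one (LL 1)

theorem nA_facts (h2 : ∀ i, 2 ≤ nn i) {j : ℕ} {c : Sy nn} (hc : dg c = 2 * j)
    (hA : (pr c).Nonempty) : Odd (nA nn (pr c)) ∧ 2 ≤ nA nn (pr c) ∧
      (nA nn (pr c) + 1) / 2 + tw c = j + (pr c).card ∧
      nA nn (pr c) + 1 = 2 * ((nA nn (pr c) + 1) / 2) := by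
  have h3 := nA_succ nn hA
  have h4 := sum_pr (fun i => (by norm_num : 1 ≤ 2).trans (h2 i)) (pr c)
  have h5 := dg_eq c
  have h6 : 3 ≤ ∑ i ∈ pr c, (nn i + 1) := by
    obtain ⟨i, hi⟩ := hA
    have := single_le_sum (f := fun i => nn i + 1) (fun _ _ => Nat.zero_le _) hi
    have := h2 i
    omega
  refine ⟨?_, by omega, by omega, by omega⟩
  rw [Nat.odd_iff]
  omega

theorem exists_hecke_prod (h2 : ∀ i, 2 ≤ nn i) {j : ℕ} (x : JI nn mm L (2 * j)) :
    ∃ (𝔣 : Ideal (𝓞 (LL (lv x)))) (k : (LL (lv x) →+* ℂ) → ℤ) (t : (LL (lv x) →+* ℂ) → ℝ),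
      IsHecke 𝔣 k t (psiI x) := by
  cases x with
  | inr x => exact ⟨_, _, _, isHecke_one (LL 1)⟩
  | inl x =>
    obtain ⟨ζ, hζ⟩ := exists_zeta x.2.1.1
    obtain ⟨hn, hn2, -, hn4⟩ := nA_facts h2 x.1.2.1 x.1.2.2
    refine ⟨_, _, _, isHecke_psi (n := nA nn (pr x.1.1)) hζ hn2 hn (ff x.2.1.1)
      (b := (rep x.2.2.1).1) (k := (nA nn (pr x.1.1) + 1) / 2) ?_⟩
    rw [cnt_good (rep x.2.2.1).2.1]
    exact hn4

theorem some_factor' {n M k j t : ℕ} [NeZero M] (hn : Odd n)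
    (hv : (Ideal.absNorm v.asIdeal).Coprime M) (hk : (n + 1) / 2 + t = j + k)
    {w : HeightOneSpectrum (𝓞 (LL M))} (hw : und ℚ w = v) (b : Fin n → ZMod M) (s : ℂ) :
    psi M (ff M) b ((n + 1) / 2) w.asIdeal *
      (Ideal.absNorm w.asIdeal : ℂ) ^ (((2 * j : ℕ) : ℂ) / 2 - s) =
      Jn k b w * ((Ideal.absNorm v.asIdeal : ℂ) ^ t *
        (Ideal.absNorm v.asIdeal : ℂ) ^ (-s)) ^ fo v M := by
  have h0 : (Ideal.absNorm w.asIdeal : ℂ) ≠ 0 := by
    rw [absNorm_w hv hw]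
    exact_mod_cast pow_ne_zero _ (absNorm_prime v).ne_zero
  have h1 : ((Ideal.absNorm v.asIdeal : ℂ) ^ t) ^ fo v M = (Ideal.absNorm w.asIdeal : ℂ) ^ t := by
    rw [absNorm_w hv hw]
    push_cast
    rw [← pow_mul, ← pow_mul, mul_comm]
  rw [cpow_w hv hw, psi_apply, PI_prime b w (nat_notMem hv hw), mul_pow, h1]
  unfold Jn
  rw [sg_odd hn, one_mul]
  have h2 : (Ideal.absNorm w.asIdeal : ℂ) ^ ((n + 1) / 2) * (Ideal.absNorm w.asIdeal : ℂ) ^ t =
      (Ideal.absNorm w.asIdeal : ℂ) ^ j * (Ideal.absNorm w.asIdeal : ℂ) ^ k := by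
    rw [← pow_add, ← pow_add, hk]
  have h3 : (Ideal.absNorm w.asIdeal : ℂ) ^ ((n + 1) / 2) ≠ 0 := pow_ne_zero _ h0
  have h4 : (Ideal.absNorm w.asIdeal : ℂ) ^ k ≠ 0 := pow_ne_zero _ h0
  have h5 : ((Ideal.absNorm w.asIdeal : ℂ) ^ ((n + 1) / 2))⁻¹ * (Ideal.absNorm w.asIdeal : ℂ) ^ j =
      (Ideal.absNorm w.asIdeal : ℂ) ^ t / (Ideal.absNorm w.asIdeal : ℂ) ^ k := by
    rw [inv_mul_eq_div, div_eq_div_iff h3 h4]
    linear_combination -h2
  linear_combination (ff M (Pv M n w b : 𝓞 (LL M)) *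
    ((Ideal.absNorm v.asIdeal : ℂ) ^ (-s)) ^ fo v M) * h5

/-- the product over the symbols -/
theorem prod_symbols {k : ℕ} (g : Sy nn → ℂ) :
    ∏ c ∈ univ.filter (fun c : Sy nn => dg c = k), g c =
      (∏ c : S1 nn k, g c.1) * ∏ c : S0 nn k, g c.1 := by
  classical
  rw [← prod_filter_mul_prod_filter_not (univ.filter (fun c : Sy nn => dg c = k))
    (fun c => (pr c).Nonempty) g]
  congr 1
  · rw [filter_filter]
    refine prod_subtype _ (fun c => ?_) g
    rw [mem_filter]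
    exact ⟨fun h => h.2, fun h => ⟨mem_univ _, h⟩⟩
  · rw [filter_filter]
    refine prod_subtype _ (fun c => ?_) g
    rw [mem_filter]
    exact ⟨fun h => h.2, fun h => ⟨mem_univ _, h⟩⟩

/-- the Euler factor -/
theorem factor_prod (h2 : ∀ i, 2 ≤ nn i) (hv : (Ideal.absNorm v.asIdeal).Coprime L) {j : ℕ}
    (s : ℂ) :
    ((bt nn mm L v (2 * j)).map fun x => 1 - x * (Ideal.absNorm v.asIdeal : ℂ) ^ (-s)).prod =
      ∏ x : JI nn mm L (2 * j), ∏ w : {w : HeightOneSpectrum (𝓞 (LL (lv x))) // und ℚ w = v},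
        (1 - psiI x w.1.asIdeal *
          (Ideal.absNorm w.1.asIdeal : ℂ) ^ (((2 * j : ℕ) : ℂ) / 2 - s)) := by
  classical
  unfold bt
  rw [prod_map_sum, prod_symbols (fun c => Multiset.prod (Multiset.map
    (fun x => 1 - x * (Ideal.absNorm v.asIdeal : ℂ) ^ (-s))
      ((ev nn mm L v (pr c)).map fun z => (Ideal.absNorm v.asIdeal : ℂ) ^ tw c * z))),
    Fintype.prod_sum_type, Fintype.prod_sigma]
  congr 1
  · refine prod_congr rfl fun c _ => ?_
    rw [Multiset.map_map, Fintype.prod_sigma]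
    unfold ev
    rw [dif_pos c.2.2, prod_map_sum]
    refine prod_congr rfl fun M _ => ?_
    have hvM := coprime_level hv M
    obtain ⟨hn, -, hn3, -⟩ := nA_facts h2 c.2.1 c.2.2
    rw [prod_map_sum]
    have h3 : ∀ ω : Orb (nA nn (pr c.1)) M.1,
        (Multiset.map ((fun x => 1 - x * (Ideal.absNorm v.asIdeal : ℂ) ^ (-s)) ∘
          fun z => (Ideal.absNorm v.asIdeal : ℂ) ^ tw c.1 * z)
          (if (fam nn mm c.2.2).P (rep ω).1 then
            ∑ w : {w : HeightOneSpectrum (𝓞 (LL M.1)) // und ℚ w = v},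
              rts (fo v M.1) (Jn (pr c.1).card (rep ω).1 w.1) else 0)).prod =
        if (fam nn mm c.2.2).P (rep ω).1 then
          ∏ w : {w : HeightOneSpectrum (𝓞 (LL M.1)) // und ℚ w = v},
          (1 - psi M.1 (ff M.1) (rep ω).1 ((nA nn (pr c.1) + 1) / 2) w.1.asIdeal *
            (Ideal.absNorm w.1.asIdeal : ℂ) ^ (((2 * j : ℕ) : ℂ) / 2 - s)) else 1 := by
      intro ω
      by_cases hP : (fam nn mm c.2.2).P (rep ω).1
      · rw [if_pos hP, if_pos hP, prod_map_sum]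
        refine prod_congr rfl fun w _ => ?_
        have h4 : (fun x => 1 - x * (Ideal.absNorm v.asIdeal : ℂ) ^ (-s)) ∘
          (fun z => (Ideal.absNorm v.asIdeal : ℂ) ^ tw c.1 * z) = fun z =>
            1 - z * ((Ideal.absNorm v.asIdeal : ℂ) ^ tw c.1 *
              (Ideal.absNorm v.asIdeal : ℂ) ^ (-s)) := by
          funext z
          simp only [Function.comp_apply]
          ring
        rw [h4, prod_rts (fo_ne hvM), some_factor' hn hvM hn3 w.2 (rep ω).1 s]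
      · rw [if_neg hP, if_neg hP]
        rfl
    rw [prod_congr rfl fun ω _ => h3 ω, ← prod_filter]
    refine prod_subtype _ (fun ω => ?_) (fun ω : Orb (nA nn (pr c.1)) M.1 =>
      ∏ w : {w : HeightOneSpectrum (𝓞 (LL M.1)) // und ℚ w = v},
          (1 - psi M.1 (ff M.1) (rep ω).1 ((nA nn (pr c.1) + 1) / 2) w.1.asIdeal *
            (Ideal.absNorm w.1.asIdeal : ℂ) ^ (((2 * j : ℕ) : ℂ) / 2 - s)))
    rw [mem_filter]
    exact ⟨fun h => h.2, fun h => ⟨mem_univ _, h⟩⟩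
  · refine prod_congr rfl fun c _ => ?_
    unfold ev
    rw [dif_neg c.2.2, Multiset.map_singleton, Multiset.map_singleton, Multiset.prod_singleton]
    have h3 := none_factor (n := 2 * j + 1) (v := v) ⟨j, rfl⟩ s
    rw [Nat.add_sub_cancel] at h3
    have h4 : tw c.1 = j := by
      have h5 := dg_eq c.1
      have h6 := c.2.2
      rw [not_nonempty_iff_eq_empty] at h6
      rw [c.2.1, h6, sum_empty] at h5
      omega
    rw [h4, mul_one]
    have h5 : 2 * j / 2 = j := by omega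
    rw [h5] at h3
    exact h3.symm

/-- **The order of the pole.** -/
theorem order_prod (h2 : ∀ i, 2 ≤ nn i) (hL : 0 < L) (hm : ∀ i, 0 < mm i) (hmL : ∀ i, mm i ∣ L)
    {n : ℕ} {eqs : Set (MvPolynomial (Fin n) (𝓞 ℚ))} (hX : IsProd nn mm eqs) {j : ℕ}
    (hj : j ≤ ∑ i, (nn i - 1)) {N : ℕ} {B : HeightOneSpectrum (𝓞 ℚ) → ℂ[X]}
    (hB : IsEulerSystem (K := ℚ) (F := ℚ) eqs (∑ i, (nn i - 1)) (2 * j) N B) :
    HasOrder (2 * j) B (-(Nat.card {x : JI nn mm L (2 * j) // IsTriv (psiI x)} : ℤ)) := by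
  have h1 : ∀ i, 1 ≤ nn i := fun i => (by norm_num : 1 ≤ 2).trans (h2 i)
  refine hasOrder_fields (K := ℚ) (fun x : JI nn mm L (2 * j) => LL (lv x)) psiI
    (fun x => exists_hecke_prod h2 x) B ?_ hB.2
  filter_upwards [euler_eval_prod h1 hL hm hmL hX (by omega) hB, eventually_cop hL] with v h3 hv s
  rw [h3, factor_prod h2 hv s]

end Run7.h365.PF
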