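import Pool.Agent.Run7.h365.PF.Stm
import Pool.Agent.Run7.h365.PF.Po

/-!
# The rank
-/

set_option autoImplicit false
set_option linter.unusedSectionVars false

namespace Run7.h365.PF

open Finset NumberField IsDedekindDomain Filter Run7.h365.FV
open Pool.Agent.H916K (RationalClass)
open Pool.Agent.Y772.NZ (one one_ne)
open Run7.h365.CM (IsTriv HasPole)

variable {r : ℕ} {nn mm : Fin r → ℕ} {L M : ℕ}

/-- orbits and elements -/
theorem card_orb {n : ℕ} [NeZero M] (Q : PT n M → Prop)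
    (hQ : ∀ (c : (ZMod M)ˣ) b, Q (c • b) ↔ Q b) :
    Nat.card {b : PT n M // Q b} = Nat.card {ω : Orb n M // Q (rep ω)} * M.totient := by
  have h1 : Nat.card (ZMod M)ˣ = M.totient := by
    rw [Nat.card_eq_fintype_card, ZMod.card_units_eq_totient]
  rw [← h1, ← Nat.card_prod]
  symm
  have hmk : ∀ (ω : Orb n M) (c : (ZMod M)ˣ),
      (Quotient.mk _ (c • rep ω) : Orb n M) = ω := by
    intro ω c
    conv_rhs => rw [← Quotient.out_eq ω]
    apply Quotient.sound
    exact ⟨c, rfl⟩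
  refine Nat.card_congr (Equiv.ofBijective
    (fun x : {ω : Orb n M // Q (rep ω)} × (ZMod M)ˣ =>
      (⟨x.2 • rep x.1.1, (hQ x.2 _).2 x.1.2⟩ : {b : PT n M // Q b})) ⟨?_, ?_⟩)
  · rintro ⟨⟨ω, hω⟩, c⟩ ⟨⟨ω', hω'⟩, c'⟩ h
    have h0 : c • rep ω = c' • rep ω' := congrArg Subtype.val h
    have h1 : ω = ω' := by rw [← hmk ω c, h0, hmk]
    subst h1
    have h2 : (c'⁻¹ * c) • rep ω = rep ω := by rw [mul_smul, h0, inv_smul_smul]
    have h3 := free _ _ h2
    rw [inv_mul_eq_one] at h3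
    rw [h3]
  · rintro ⟨b, hb⟩
    obtain ⟨c, hc⟩ := rep_mk_smul b
    have h2 : Q (rep (Quotient.mk _ b : Orb n M)) := by
      rw [← hc, hQ] at hb
      exact hb
    exact ⟨(⟨_, h2⟩, c), Subtype.ext hc⟩

section char

variable {A : Finset (Fin r)} (hA : A.Nonempty)

/-- the family of a tuple -/
noncomputable def tof (hA : A.Nonempty) (b : Fin (nA nn A) → ZMod M) : Ent nn A → ZMod M :=
  fun x => full b (enu nn hA x)

include hA

theorem order_tof (b : Fin (nA nn A) → ZMod M) : addOrderOf (tof hA b) = addOrderOf b := by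
  rw [← order_full b]
  apply addOrderOf_eq_addOrderOf_iff.mpr
  intro k
  constructor
  · intro h
    funext i
    obtain ⟨x, rfl⟩ := (enu nn hA).surjective i
    exact congrFun h x
  · intro h
    funext x
    exact congrFun h (enu nn hA x)

theorem isChar_tof {b : Fin (nA nn A) → ZMod M} :
    IsChar nn mm A (tof hA b) ↔ (Good b ∧ addOrderOf b = M) ∧ (fam nn mm hA).P b := by
  constructor
  · intro h
    refine ⟨⟨(good_iff b).2 fun x => ?_, by rw [← order_tof hA]; exact h.level⟩,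
      fun i => ⟨h.sum_eq i, fun j => h.degree i j⟩⟩
    obtain ⟨y, rfl⟩ := (enu nn hA).surjective x
    exact h.ne_zero y
  · rintro ⟨⟨h1, h2⟩, h3⟩
    exact ⟨fun x => (good_iff b).1 h1 _, fun i => (h3 i).1, fun i j => (h3 i).2 j,
      by rw [order_tof hA]; exact h2⟩

theorem tof_inj : Function.Injective (tof (nn := nn) (M := M) hA) := by
  intro b b' h
  apply full_inj
  funext i
  obtain ⟨x, rfl⟩ := (enu nn hA).surjective i
  exact congrFun h x

theorem tof_surj {a : Ent nn A → ZMod M} (ha : ∀ i, ∑ j, a ⟨i, j⟩ = 0) :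
    ∃ b, tof hA b = a := by
  obtain ⟨a', ha'⟩ : ∃ a' : Fin (nA nn A + 1) → ZMod M, a' = fun x => a ((enu nn hA).symm x) :=
    ⟨_, rfl⟩
  have h3 : ∀ x, a' (enu nn hA x) = a x := by
    intro x
    rw [ha']
    dsimp only
    rw [Equiv.symm_apply_apply]
  have h4 : ∑ x, a' x = 0 := by
    rw [← (enu nn hA).sum_comp, Fintype.sum_sigma]
    refine sum_eq_zero fun i _ => ?_
    rw [sum_congr rfl fun j _ => h3 ⟨i, j⟩]
    exact ha i
  refine ⟨Fin.tail a', ?_⟩
  funext x
  unfold tof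
  rw [full_tail h4]
  exact h3 x

theorem map_tof {β : Type} (b : Fin (nA nn A) → ZMod M) (f : ZMod M → β) :
    (univ.val.map fun x : Ent nn A => f (tof hA b x)) = univ.val.map fun i => f (full b i) := by
  have h1 : (univ : Finset (Fin (nA nn A + 1))) = univ.map (enu nn hA).toEmbedding :=
    (map_univ_equiv (enu nn hA)).symm
  rw [h1, map_val, Multiset.map_map]
  rfl

theorem isRat_tof [NeZero M] {b : Fin (nA nn A) → ZMod M} : IsRat (tof hA b) ↔ Pw b := by
  rw [← rational_iff_Pw]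
  unfold IsRat ms
  rw [map_tof hA b fun z => (z, (1 : ℤ))]

theorem card_chars [NeZero M] :
    Nat.card {a : Ent nn A → ZMod M // IsChar nn mm A a ∧ IsRat a} =
      Nat.card {b : PT (nA nn A) M // (fam nn mm hA).P b.1 ∧ Pw b.1} := by
  symm
  refine Nat.card_congr (Equiv.ofBijective
    (fun b : {b : PT (nA nn A) M // (fam nn mm hA).P b.1 ∧ Pw b.1} =>
    (⟨tof hA b.1.1, (isChar_tof hA).2 ⟨b.1.2, b.2.1⟩, (isRat_tof hA).2 b.2.2⟩ :
      {a : Ent nn A → ZMod M // IsChar nn mm A a ∧ IsRat a})) ⟨?_, ?_⟩)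
  · rintro ⟨⟨b, hb⟩, hb'⟩ ⟨⟨b', hb1⟩, hb2⟩ h
    have h1 : tof hA b = tof hA b' := congrArg Subtype.val h
    have h2 := tof_inj hA h1
    subst h2
    rfl
  · rintro ⟨a, ha1, ha2⟩
    obtain ⟨b, rfl⟩ := tof_surj hA ha1.sum_eq
    have h2 := (isChar_tof hA).1 ha1
    exact ⟨⟨⟨b, h2.1⟩, h2.2, (isRat_tof hA).1 ha2⟩, rfl⟩

theorem card_orbits [NeZero M] :
    Nat.card {ω : Orb (nA nn A) M // (fam nn mm hA).P (rep ω).1 ∧ Pw (rep ω).1} =
      Nat.card {a : Ent nn A → ZMod M // IsChar nn mm A a ∧ IsRat a} / M.totient := by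
  rw [card_chars hA, card_orb (fun b : PT (nA nn A) M => (fam nn mm hA).P b.1 ∧ Pw b.1)
    (fun c b => and_congr (Fam.smul c b) (Pw_smul_iff c b)),
    Nat.mul_div_cancel _ (Nat.totient_pos.2 (NeZero.pos M))]

end char

/-! ### the empty set -/

theorem card_empty (hL : 0 < L) {A : Finset (Fin r)} (hA : ¬ A.Nonempty) :
    ∑ M ∈ L.divisors, Nat.card {a : Ent nn A → ZMod M // IsChar nn mm A a ∧ IsRat a} / M.totient =
      1 := by
  rw [not_nonempty_iff_eq_empty] at hA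
  subst hA
  have hE : IsEmpty (Ent nn (∅ : Finset (Fin r))) := ⟨fun x => absurd x.1.2 (notMem_empty _)⟩
  have hu : ∀ (M : ℕ) (a : Ent nn (∅ : Finset (Fin r)) → ZMod M), a = 0 := fun M a =>
    funext fun x => (hE.false x).elim
  rw [sum_eq_single 1]
  · have h1 : IsChar nn mm (∅ : Finset (Fin r)) (0 : Ent nn (∅ : Finset (Fin r)) → ZMod 1) :=
      ⟨fun x => (hE.false x).elim, fun i => absurd i.2 (notMem_empty _),
        fun i => absurd i.2 (notMem_empty _), addOrderOf_zero⟩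
    have h2 : IsRat (0 : Ent nn (∅ : Finset (Fin r)) → ZMod 1) := by
      refine ⟨0, fun ℓ _ _ F _ _ _ χ ψ _ _ => ?_⟩
      have h3 : (univ.val.map fun x : Ent nn (∅ : Finset (Fin r)) =>
          ((0 : Ent nn (∅ : Finset (Fin r)) → ZMod 1) x, (1 : ℤ))) = 0 := by
        rw [univ_eq_empty]
        rfl
      rw [h3]
      simp
    have h4 : Nat.card {a : Ent nn (∅ : Finset (Fin r)) → ZMod 1 //
        IsChar nn mm (∅ : Finset (Fin r)) a ∧ IsRat a} = 1 := by
      rw [Nat.card_eq_one_iff_unique]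
      refine ⟨⟨fun x y => Subtype.ext (by rw [hu 1 x.1, hu 1 y.1])⟩, ⟨⟨0, h1, h2⟩⟩⟩
    rw [h4, Nat.totient_one, Nat.div_one]
  · intro M _ hM
    have h5 : IsEmpty {a : Ent nn (∅ : Finset (Fin r)) → ZMod M //
        IsChar nn mm (∅ : Finset (Fin r)) a ∧ IsRat a} := by
      refine ⟨fun x => hM ?_⟩
      have h6 := x.2.1.level
      rw [hu M x.1, addOrderOf_zero] at h6
      exact h6.symm
    rw [Nat.card_of_isEmpty, Nat.zero_div]
  · intro h
    exact absurd (Nat.one_mem_divisors.2 hL.ne') h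

/-! ### the number of the trivial characters -/

theorem triv_one : IsTriv (one (LL 1)) := by
  intro 𝔞 h𝔞
  by_cases h0 : 𝔞 = 0
  · exact absurd (by rw [h0, map_zero]) h𝔞
  · exact one_ne (LL 1) h0

/-- the sum over the symbols -/
theorem sum_symbols {k : ℕ} (g : Sy nn → ℕ) :
    ∑ c ∈ univ.filter (fun c : Sy nn => dg c = k), g c =
      (∑ c : S1 nn k, g c.1) + ∑ c : S0 nn k, g c.1 := by
  classical
  rw [← sum_filter_add_sum_filter_not (univ.filter (fun c : Sy nn => dg c = k))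
    (fun c => (pr c).Nonempty) g]
  congr 1
  · rw [filter_filter]
    refine sum_subtype _ (fun c => ?_) g
    rw [mem_filter]
    exact ⟨fun h => h.2, fun h => ⟨mem_univ _, h⟩⟩
  · rw [filter_filter]
    refine sum_subtype _ (fun c => ?_) g
    rw [mem_filter]
    exact ⟨fun h => h.2, fun h => ⟨mem_univ _, h⟩⟩

theorem card_JI (h2 : ∀ i, 2 ≤ nn i) (hL : 0 < L) (j : ℕ) :
    Nat.card {x : JI nn mm L (2 * j) // IsTriv (psiI x)} =
      ∑ c ∈ univ.filter (fun c : Sy nn => dg c = 2 * j), ∑ M ∈ L.divisors,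
        Nat.card {a : Ent nn (pr c) → ZMod M // IsChar nn mm (pr c) a ∧ IsRat a} / M.totient := by
  classical
  -- the two parts
  have e1 : Nat.card {x : JI nn mm L (2 * j) // IsTriv (psiI x)} =
      Nat.card {x : Σ c : S1 nn (2 * j), Σ M : D L, O1 nn mm c M.1 //
        IsTriv (psiI (Sum.inl x : JI nn mm L (2 * j)))} +
      Nat.card {x : S0 nn (2 * j) // IsTriv (psiI (Sum.inr x : JI nn mm L (2 * j)))} := by
    rw [← Nat.card_sum]
    exact Nat.card_congr Equiv.subtypeSum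
  have e2 : Nat.card {x : S0 nn (2 * j) // IsTriv (psiI (Sum.inr x : JI nn mm L (2 * j)))} =
      ∑ _c : S0 nn (2 * j), 1 := by
    rw [sum_const, smul_eq_mul, mul_one, card_univ, ← Nat.card_eq_fintype_card]
    refine Nat.card_congr (Equiv.subtypeUnivEquiv fun x => ?_)
    exact triv_one
  have h1 : ∀ x : Σ c : S1 nn (2 * j), Σ M : D L, O1 nn mm c M.1,
      IsTriv (psiI (Sum.inl x : JI nn mm L (2 * j))) ↔ Pw (rep x.2.2.1).1 := by
    intro x
    obtain ⟨hn, hn2, -, -⟩ := nA_facts h2 x.1.2.1 x.1.2.2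
    change IsTriv (psi x.2.1.1 (ff x.2.1.1) (rep x.2.2.1).1 ((nA nn (pr x.1.1) + 1) / 2)) ↔ _
    rw [triv_iff hn hn2 (rep x.2.2.1).2.1, rational_iff_Pw]
  have e3 : Nat.card {x : Σ c : S1 nn (2 * j), Σ M : D L, O1 nn mm c M.1 //
        IsTriv (psiI (Sum.inl x : JI nn mm L (2 * j)))} =
      Nat.card (Σ c : S1 nn (2 * j), Σ M : D L,
        {ω : Orb (nA nn (pr c.1)) M.1 // (fam nn mm c.2.2).P (rep ω).1 ∧ Pw (rep ω).1}) := by
    refine Nat.card_congr
      { toFun := fun x => ⟨x.1.1, x.1.2.1, x.1.2.2.1, x.1.2.2.2, (h1 x.1).1 x.2⟩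
        invFun := fun x => ⟨⟨x.1, x.2.1, x.2.2.1, x.2.2.2.1⟩, (h1 _).2 x.2.2.2.2⟩
        left_inv := fun _ => rfl
        right_inv := fun _ => rfl }
  rw [e1, e2, e3, Nat.card_sigma, sum_symbols]
  congr 1
  · refine sum_congr rfl fun c _ => ?_
    rw [Nat.card_sigma, sum_congr rfl fun M _ => card_orbits (M := M.1) c.2.2]
    exact sum_coe_sort L.divisors (fun M => Nat.card {a : Ent nn (pr c.1) → ZMod M //
      IsChar nn mm (pr c.1) a ∧ IsRat a} / M.totient)
  · refine sum_congr rfl fun c _ => ?_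
    exact (card_empty hL c.2.2).symm

end Run7.h365.PF
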