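import Pool.Agent.Run7.h365.PF.Bt

/-!
# The equations of the product of Fermat varieties, in the embedding of Segre
-/

set_option autoImplicit false
set_option linter.unusedSectionVars false

namespace Run7.h365.PF

open Finset NumberField IsDedekindDomain Filter Run7.h365.FV
open Pool.Agent.W353.EF (cone)
open Function (update)

variable {r : ℕ}

/-- The index set of the coordinates of the embedding of Segre. -/
abbrev Tu (nn : Fin r → ℕ) : Type := ∀ i : Fin r, Fin (nn i + 1)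

/-- The coordinate of the index `t`, as a variable. -/
noncomputable def vrb (nn : Fin r → ℕ) (t : Tu nn) :
    MvPolynomial (Fin (Fintype.card (Tu nn))) (𝓞 ℚ) :=
  MvPolynomial.X (Fintype.equivFin (Tu nn) t)

/-- The equations of the product of the Fermat varieties in the embedding of Segre, in the coordinates
`z_t = ∏ x_(i, t i)`: the equations `z_s z_t = z_s' z_t'`, where `s'`, `t'` arise from `s`, `t` by the
exchange of the `i`-th components, and for every `i` and `t` the equation of the `i`-th Fermat variety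
for the coordinates `z_t'` of the tuples `t'` which differ from `t` only in the `i`-th component. -/
def segre (nn mm : Fin r → ℕ) : Set (MvPolynomial (Fin (Fintype.card (Tu nn))) (𝓞 ℚ)) :=
  {f | ∃ (s t : Tu nn) (i : Fin r), f = vrb nn s * vrb nn t -
    vrb nn (update s i (t i)) * vrb nn (update t i (s i))} ∪
  {f | ∃ (t : Tu nn) (i : Fin r), f = ∑ j, vrb nn (update t i j) ^ mm i}

section seg

variable {nn mm : Fin r → ℕ} {κ : Type} [Field κ]

/-- the relations of Segre -/
def Sg (z : Tu nn → κ) : Prop :=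
  ∀ s t i, z s * z t = z (update s i (t i)) * z (update t i (s i))

/-- the equations of Fermat -/
def Fe (mm : Fin r → ℕ) (z : Tu nn → κ) : Prop := ∀ t i, ∑ j, z (update t i j) ^ mm i = 0

/-- the base point -/
noncomputable def bp (z : Tu nn → κ) : Tu nn := Classical.epsilon (fun t => z t ≠ 0)

theorem bp_spec {z : Tu nn → κ} (h : z ≠ 0) : z (bp z) ≠ 0 := by
  obtain ⟨t, ht⟩ := Function.ne_iff.1 h
  exact Classical.epsilon_spec (p := fun t => z t ≠ 0) ⟨t, ht⟩

theorem bp_congr {z z' : Tu nn → κ} (h : ∀ t, z t ≠ 0 ↔ z' t ≠ 0) : bp z = bp z' := by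
  unfold bp
  congr 1
  funext t
  exact propext (h t)

theorem seg_prod {z : Tu nn → κ} (hz : Sg z) {t0 : Tu nn} (h0 : z t0 ≠ 0) (t : Tu nn) :
    z t = z t0 * ∏ i, (z (update t0 i (t i)) / z t0) := by
  classical
  have key : ∀ A : Finset (Fin r), z (A.piecewise t t0) =
      z t0 * ∏ i ∈ A, (z (update t0 i (t i)) / z t0) := by
    intro A
    induction A using Finset.induction_on with
    | empty => rw [piecewise_empty, prod_empty, mul_one]
    | insert i A hi ih =>
      have h1 := hz (A.piecewise t t0) (update t0 i (t i)) i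
      rw [Function.update_self, piecewise_eq_of_notMem _ _ _ hi, Function.update_idem,
        Function.update_eq_self, ih] at h1
      rw [piecewise_insert, prod_insert hi]
      apply mul_right_cancel₀ h0
      rw [← h1]
      field_simp
  have h1 := key univ
  rwa [piecewise_univ] at h1

/-- the tensor product -/
def tens (y : ∀ i : Fin r, Fin (nn i + 1) → κ) : Tu nn → κ := fun t => ∏ i, y i (t i)

/-- the vectors of a tensor -/
noncomputable def toY (z : Tu nn → κ) (l : Fin r → κ) : ∀ i : Fin r, Fin (nn i + 1) → κ :=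
  fun i j => l i * (z (update (bp z) i j) / z (bp z))

/-- the normalised tensor product -/
noncomputable def toZ (y : ∀ i : Fin r, Fin (nn i + 1) → κ) (μ : κ) : Tu nn → κ :=
  fun t => μ * ∏ i, (y i (t i) / y i (bp (tens y) i))

theorem tens_ne {y : ∀ i : Fin r, Fin (nn i + 1) → κ} (hy : ∀ i, y i ≠ 0) : tens y ≠ 0 := by
  have h1 : ∀ i, ∃ j, y i j ≠ 0 := fun i => Function.ne_iff.1 (hy i)
  choose t ht using h1
  exact Function.ne_iff.2 ⟨t, prod_ne_zero_iff.2 fun i _ => ht i⟩

theorem base_ne {y : ∀ i : Fin r, Fin (nn i + 1) → κ} (hy : ∀ i, y i ≠ 0) (i : Fin r) :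
    y i (bp (tens y) i) ≠ 0 := by
  have h1 := bp_spec (tens_ne hy)
  exact prod_ne_zero_iff.1 h1 i (mem_univ i)

theorem tens_toY {z : Tu nn → κ} (hz : Sg z) (h0 : z ≠ 0) (l : Fin r → κ) (t : Tu nn) :
    tens (toY z l) t = (∏ i, l i) * (z t / z (bp z)) := by
  have h1 := bp_spec h0
  unfold tens toY
  rw [prod_mul_distrib]
  congr 1
  rw [seg_prod hz h1 t, mul_div_cancel_left₀ _ h1]

theorem bp_toY {z : Tu nn → κ} (hz : Sg z) (h0 : z ≠ 0) {l : Fin r → κ} (hl : ∀ i, l i ≠ 0) :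
    bp (tens (toY z l)) = bp z := by
  apply bp_congr
  intro t
  rw [tens_toY hz h0]
  have h1 := bp_spec h0
  have h2 : ∏ i, l i ≠ 0 := prod_ne_zero_iff.2 fun i _ => hl i
  constructor
  · intro h h3
    exact h (by rw [h3, zero_div, mul_zero])
  · intro h
    exact mul_ne_zero h2 (div_ne_zero h h1)

theorem toY_base {z : Tu nn → κ} (h0 : z ≠ 0) (l : Fin r → κ) (i : Fin r) :
    toY z l i (bp z i) = l i := by
  unfold toY
  rw [Function.update_eq_self, div_self (bp_spec h0), mul_one]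

theorem toZ_toY {z : Tu nn → κ} (hz : Sg z) (h0 : z ≠ 0) {l : Fin r → κ} (hl : ∀ i, l i ≠ 0) :
    toZ (toY z l) (z (bp z)) = z := by
  funext t
  unfold toZ
  rw [bp_toY hz h0 hl, seg_prod hz (bp_spec h0) t]
  congr 1
  refine prod_congr rfl fun i _ => ?_
  rw [toY_base h0]
  unfold toY
  exact mul_div_cancel_left₀ _ (hl i)

theorem toZ_ne_iff {y : ∀ i : Fin r, Fin (nn i + 1) → κ} (hy : ∀ i, y i ≠ 0) {μ : κ} (hμ : μ ≠ 0)
    (t : Tu nn) : toZ y μ t ≠ 0 ↔ tens y t ≠ 0 := by
  unfold toZ tens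
  constructor
  · intro h
    rw [prod_ne_zero_iff]
    intro i _ h1
    apply h
    rw [prod_eq_zero (mem_univ i) (by rw [h1, zero_div]), mul_zero]
  · intro h
    refine mul_ne_zero hμ (prod_ne_zero_iff.2 fun i _ => div_ne_zero ?_ (base_ne hy i))
    exact prod_ne_zero_iff.1 h i (mem_univ i)

theorem bp_toZ {y : ∀ i : Fin r, Fin (nn i + 1) → κ} (hy : ∀ i, y i ≠ 0) {μ : κ} (hμ : μ ≠ 0) :
    bp (toZ y μ) = bp (tens y) := bp_congr (toZ_ne_iff hy hμ)

theorem toZ_base {y : ∀ i : Fin r, Fin (nn i + 1) → κ} (hy : ∀ i, y i ≠ 0) (μ : κ) :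
    toZ y μ (bp (tens y)) = μ := by
  unfold toZ
  rw [prod_eq_one fun i _ => div_self (base_ne hy i), mul_one]

theorem prod_upd (y : ∀ i : Fin r, Fin (nn i + 1) → κ) (w : Fin r → κ) (t : Tu nn) (i : Fin r)
    (j : Fin (nn i + 1)) : ∏ k, (y k (update t i j k) / w k) =
      (y i j / w i) * ∏ k ∈ univ.erase i, (y k (t k) / w k) := by
  rw [← mul_prod_erase univ _ (mem_univ i), Function.update_self]
  congr 1
  refine prod_congr rfl fun k hk => ?_
  rw [Function.update_of_ne (ne_of_mem_erase hk)]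

theorem toY_toZ {y : ∀ i : Fin r, Fin (nn i + 1) → κ} (hy : ∀ i, y i ≠ 0) {μ : κ} (hμ : μ ≠ 0) :
    toY (toZ y μ) (fun i => y i (bp (tens y) i)) = y := by
  funext i j
  unfold toY
  rw [bp_toZ hy hμ, toZ_base hy]
  unfold toZ
  rw [prod_upd, prod_eq_one (s := univ.erase i) fun k _ => div_self (base_ne hy k), mul_one]
  have := base_ne hy i
  field_simp

theorem sg_toZ (y : ∀ i : Fin r, Fin (nn i + 1) → κ) (μ : κ) : Sg (toZ y μ) := by
  intro s t i
  unfold toZ
  rw [mul_mul_mul_comm, mul_mul_mul_comm μ _ μ _, ← prod_mul_distrib, ← prod_mul_distrib]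
  congr 1
  refine prod_congr rfl fun k _ => ?_
  by_cases hk : k = i
  · subst hk
    rw [Function.update_self, Function.update_self, mul_comm]
  · rw [Function.update_of_ne hk, Function.update_of_ne hk]

theorem fe_toZ {y : ∀ i : Fin r, Fin (nn i + 1) → κ} (hy : ∀ i, ∑ j, y i j ^ mm i = 0) (μ : κ) :
    Fe mm (toZ y μ) := by
  intro t i
  unfold toZ
  have h1 : ∀ j, (μ * ∏ k, (y k (update t i j k) / y k (bp (tens y) k))) ^ mm i =
      (μ * ((y i (bp (tens y) i))⁻¹ *
        ∏ k ∈ univ.erase i, (y k (t k) / y k (bp (tens y) k)))) ^ mm i * y i j ^ mm i := by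
    intro j
    rw [prod_upd y (fun k => y k (bp (tens y) k)), ← mul_pow]
    congr 1
    rw [div_eq_mul_inv]
    ring
  rw [sum_congr rfl fun j _ => h1 j, ← mul_sum, hy i, mul_zero]

theorem fe_toY {z : Tu nn → κ} (hf : Fe mm z) (l : Fin r → κ) (i : Fin r) :
    ∑ j, toY z l i j ^ mm i = 0 := by
  unfold toY
  have h1 : ∀ j, (l i * (z (update (bp z) i j) / z (bp z))) ^ mm i =
      (l i * (z (bp z))⁻¹) ^ mm i * z (update (bp z) i j) ^ mm i := by
    intro j
    rw [← mul_pow, div_eq_mul_inv]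
    congr 1
    ring
  rw [sum_congr rfl fun j _ => h1 j, ← mul_sum, hf, mul_zero]

/-- the two countings -/
noncomputable def segEquiv (nn mm : Fin r → ℕ) (κ : Type) [Field κ] :
    ({z : Tu nn → κ // z ≠ 0 ∧ Sg z ∧ Fe mm z} × (Fin r → κˣ)) ≃
      ((∀ i : Fin r, {x : Fin (nn i + 1) → κ // x ≠ 0 ∧ ∑ j, x j ^ mm i = 0}) × κˣ) where
  toFun p := (fun i => ⟨toY p.1.1 (fun i => (p.2 i : κ)) i, by
      refine ⟨fun h => ?_, fe_toY p.1.2.2.2 _ i⟩
      have h1 := toY_base p.1.2.1 (fun i => (p.2 i : κ)) i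
      rw [h] at h1
      exact (p.2 i).ne_zero h1.symm⟩, Units.mk0 (p.1.1 (bp p.1.1)) (bp_spec p.1.2.1))
  invFun p := (⟨toZ (fun i => (p.1 i).1) (p.2 : κ), by
      refine ⟨fun h => ?_, sg_toZ _ _, fe_toZ (fun i => (p.1 i).2.2) _⟩
      have h1 := toZ_base (fun i => (p.1 i).2.1) (p.2 : κ)
      rw [h] at h1
      exact p.2.ne_zero h1.symm⟩,
    fun i => Units.mk0 _ (base_ne (fun i => (p.1 i).2.1) i))
  left_inv p := by
    obtain ⟨⟨z, hz0, hz, hf⟩, l⟩ := p
    refine Prod.ext (Subtype.ext ?_) (funext fun i => Units.ext ?_)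
    · exact toZ_toY hz hz0 fun i => (l i).ne_zero
    · change toY z (fun i => (l i : κ)) i (bp (tens (toY z fun i => (l i : κ))) i) = l i
      rw [bp_toY hz hz0 fun i => (l i).ne_zero, toY_base hz0]
  right_inv p := by
    obtain ⟨y, μ⟩ := p
    refine Prod.ext (funext fun i => Subtype.ext ?_) (Units.ext ?_)
    · exact congrFun (toY_toZ (fun i => (y i).2.1) μ.ne_zero) i
    · change toZ (fun i => (y i).1) (μ : κ) (bp (toZ (fun i => (y i).1) (μ : κ))) = μ
      rw [bp_toZ (fun i => (y i).2.1) μ.ne_zero, toZ_base (fun i => (y i).2.1)]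

theorem card_seg (nn mm : Fin r → ℕ) [Finite κ] :
    Nat.card {z : Tu nn → κ // z ≠ 0 ∧ Sg z ∧ Fe mm z} * Nat.card κˣ ^ r =
      (∏ i, Nat.card {x : Fin (nn i + 1) → κ // x ≠ 0 ∧ ∑ j, x j ^ mm i = 0}) * Nat.card κˣ := by
  have h1 := Nat.card_congr (segEquiv nn mm κ)
  rw [Nat.card_prod, Nat.card_prod, Nat.card_pi, Nat.card_pi, prod_const, card_univ,
    Fintype.card_fin] at h1
  exact h1

theorem cone_segre (φ : 𝓞 ℚ →+* κ) :
    cone (segre nn mm) φ = Nat.card {z : Tu nn → κ // z ≠ 0 ∧ Sg z ∧ Fe mm z} := by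
  unfold cone
  refine Nat.card_congr (Equiv.subtypeEquiv
    (Equiv.arrowCongr (Fintype.equivFin (Tu nn)).symm (Equiv.refl κ)) fun u => ?_)
  have h0 : ∀ t, (Equiv.arrowCongr (Fintype.equivFin (Tu nn)).symm (Equiv.refl κ) u) t =
      u (Fintype.equivFin (Tu nn) t) := fun t => rfl
  have h1 : ∀ t, MvPolynomial.eval₂ φ u (vrb nn t) = u (Fintype.equivFin (Tu nn) t) := by
    intro t
    unfold vrb
    rw [MvPolynomial.eval₂_X]
  refine and_congr ?_ ⟨fun h => ⟨fun s t i => ?_, fun t i => ?_⟩, fun h f hf => ?_⟩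
  · refine not_congr ⟨fun h => ?_, fun h => ?_⟩
    · rw [h]
      rfl
    · funext x
      obtain ⟨t, rfl⟩ := (Fintype.equivFin (Tu nn)).surjective x
      exact congrFun h t
  · have h2 := h _ (Or.inl ⟨s, t, i, rfl⟩)
    rw [MvPolynomial.eval₂_sub, MvPolynomial.eval₂_mul, MvPolynomial.eval₂_mul, h1, h1, h1, h1,
      sub_eq_zero] at h2
    exact h2
  · have h2 := h _ (Or.inr ⟨t, i, rfl⟩)
    rw [MvPolynomial.eval₂_sum] at h2
    rw [← h2]
    refine sum_congr rfl fun j _ => ?_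
    rw [MvPolynomial.eval₂_pow, h1]
    rfl
  · rcases hf with ⟨s, t, i, rfl⟩ | ⟨t, i, rfl⟩
    · rw [MvPolynomial.eval₂_sub, MvPolynomial.eval₂_mul, MvPolynomial.eval₂_mul, h1, h1, h1, h1,
        sub_eq_zero]
      exact h.1 s t i
    · rw [MvPolynomial.eval₂_sum, ← h.2 t i]
      refine sum_congr rfl fun j _ => ?_
      rw [MvPolynomial.eval₂_pow, h1]
      rfl

theorem cone_fermat (n m : ℕ) (φ : 𝓞 ℚ →+* κ) :
    cone (fermat n m) φ = Nat.card {x : Fin (n + 1) → κ // x ≠ 0 ∧ ∑ j, x j ^ m = 0} := by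
  unfold cone
  refine Nat.card_congr (Equiv.subtypeEquivRight fun u => and_congr Iff.rfl ?_)
  unfold fermat
  simp only [Set.mem_singleton_iff, forall_eq, MvPolynomial.eval₂_sum, MvPolynomial.eval₂_pow,
    MvPolynomial.eval₂_X]

end seg

/-- **The product exists.** -/
theorem isProd_segre (nn mm : Fin r → ℕ) : IsProd nn mm (segre nn mm) := by
  refine Eventually.of_forall fun v κ _ _ φ _ => ?_
  have h1 := card_seg (κ := κ) nn mm
  rw [← cone_segre φ, prod_congr rfl fun i _ => (cone_fermat (nn i) (mm i) φ).symm] at h1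
  have h2 : (Nat.card κˣ : ℤ) = (Nat.card κ : ℤ) - 1 := by
    have h3 := Nat.card_units κ
    have h4 : 0 < Nat.card κ := Nat.card_pos
    omega
  rw [← h2, mul_comm (Nat.card κˣ : ℤ)]
  exact_mod_cast h1

end Run7.h365.PF
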