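import Pool.Agent.Run7.h365.PF.Pro

/-!
# The cohomology of the products of Fermat varieties
-/

set_option autoImplicit false
set_option linter.unusedSectionVars false

namespace Run7.h365.PF

open Finset NumberField IsDedekindDomain Filter Polynomial Run7.h365.FV
open Pool.Agent.W353.EF (cone IsFrobenius IsEulerSystem)

variable {r : ℕ}

/-- the symbols of the Künneth formula -/
abbrev Sy (nn : Fin r → ℕ) : Type := ∀ i : Fin r, Option (Fin (nn i))

/-- the factors with primitive cohomology -/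
def pr {nn : Fin r → ℕ} (c : Sy nn) : Finset (Fin r) := univ.filter fun i => c i = none

/-- the twist -/
def tw {nn : Fin r → ℕ} (c : Sy nn) : ℕ := ∑ i, (c i).elim 0 fun j => (j : ℕ)

/-- the degree -/
def dg {nn : Fin r → ℕ} (c : Sy nn) : ℕ := ∑ i, (c i).elim (nn i - 1) fun j => 2 * (j : ℕ)

section sym

variable {nn : Fin r → ℕ}

theorem dg_eq (c : Sy nn) : dg c = ∑ i ∈ pr c, (nn i - 1) + 2 * tw c := by
  unfold dg pr tw
  rw [sum_filter, mul_sum, ← sum_add_distrib]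
  refine sum_congr rfl fun i _ => ?_
  cases h : c i with
  | none => simp
  | some j => simp

theorem dg_le (c : Sy nn) : dg c ≤ 2 * ∑ i, (nn i - 1) := by
  unfold dg
  rw [mul_sum]
  refine sum_le_sum fun i _ => ?_
  cases h : c i with
  | none => simp only [Option.elim_none]; omega
  | some j => simp only [Option.elim_some]; have := j.2; omega

theorem sum_pr (h1 : ∀ i, 1 ≤ nn i) (A : Finset (Fin r)) :
    ∑ i ∈ A, (nn i + 1) = ∑ i ∈ A, (nn i - 1) + 2 * A.card := by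
  rw [mul_comm, ← smul_eq_mul, ← sum_const, ← sum_add_distrib]
  refine sum_congr rfl fun i _ => ?_
  have := h1 i
  omega

/-- the sign of a set of factors -/
noncomputable def sgA (nn : Fin r → ℕ) (A : Finset (Fin r)) : ℂ := (-1) ^ (∑ i ∈ A, (nn i + 1))

theorem sgA_eq {A : Finset (Fin r)} (hA : A.Nonempty) : sgA nn A = sg (nA nn A) := by
  unfold sgA sg
  rw [nA_succ nn hA]

theorem sgA_dg (h1 : ∀ i, 1 ≤ nn i) (c : Sy nn) : (-1 : ℂ) ^ dg c = sgA nn (pr c) := by
  unfold sgA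
  rw [sum_pr h1, dg_eq, pow_add, pow_add, pow_mul, pow_mul]
  simp

theorem sgA_sq (A : Finset (Fin r)) : sgA nn A * sgA nn A = 1 := by
  unfold sgA
  rw [← pow_add, ← two_mul]
  exact (even_two_mul _).neg_one_pow

theorem prod_sy (S : Fin r → ℂ) (Q : ℂ) :
    ∏ i, (∑ j ∈ range (nn i), Q ^ j + S i) =
      ∑ c : Sy nn, Q ^ tw c * ∏ i ∈ pr c, S i := by
  classical
  have h1 : ∀ i, ∑ j ∈ range (nn i), Q ^ j + S i =
      ∑ o : Option (Fin (nn i)), o.elim (S i) fun j => Q ^ (j : ℕ) := by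
    intro i
    rw [Fintype.sum_option, add_comm]
    simp only [Option.elim_none, Option.elim_some]
    rw [Fin.sum_univ_eq_sum_range (fun j => Q ^ j)]
  rw [prod_congr rfl fun i _ => h1 i]
  have h2 := Finset.prod_univ_sum (fun i : Fin r => (univ : Finset (Option (Fin (nn i)))))
    (fun i o => o.elim (S i) fun j => Q ^ (j : ℕ))
  rw [Fintype.piFinset_univ] at h2
  rw [h2]
  refine sum_congr rfl fun c _ => ?_
  unfold tw pr
  rw [prod_filter, ← prod_pow_eq_pow_sum, ← prod_mul_distrib]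
  refine prod_congr rfl fun i _ => ?_
  cases h : c i with
  | none => simp
  | some j => simp

end sym

/-! ### the eigenvalues -/

section ev

variable {nn mm : Fin r → ℕ} {L : ℕ} {v : HeightOneSpectrum (𝓞 ℚ)}

open Classical in
/-- the eigenvalues on the tensor product of the primitive parts -/
noncomputable def ev (nn mm : Fin r → ℕ) (L : ℕ) (v : HeightOneSpectrum (𝓞 ℚ))
    (A : Finset (Fin r)) : Multiset ℂ :=
  if hA : A.Nonempty then
    ∑ M : D L, ∑ ω : Orb (nA nn A) M.1, if (fam nn mm hA).P (rep ω).1 then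
      ∑ w : {w : HeightOneSpectrum (𝓞 (LL M.1)) // und ℚ w = v},
        rts (fo v M.1) (Jn A.card (rep ω).1 w.1) else 0
  else {1}

open Classical in
theorem pow_ev (hv : (Ideal.absNorm v.asIdeal).Coprime L) (e : ℕ) {A : Finset (Fin r)}
    (hA : A.Nonempty) : ((ev nn mm L v A).map fun z => z ^ e).sum =
      ∑ M : D L, tr (fam nn mm hA) A.card v e M.1 := by
  unfold ev
  rw [dif_pos hA, sum_map_sum]
  refine sum_congr rfl fun M _ => ?_
  rw [sum_map_sum]
  unfold tr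
  refine sum_congr rfl fun ω _ => ?_
  by_cases hP : (fam nn mm hA).P (rep ω).1
  · rw [if_pos hP, if_pos hP, sum_map_sum]
    refine sum_congr rfl fun w _ => ?_
    exact sum_rts (fo_ne (coprime_level hv M)) _ e
  · rw [if_neg hP, if_neg hP]
    rfl

theorem norm_Jn {n M : ℕ} [NeZero M] (hv : (Ideal.absNorm v.asIdeal).Coprime M)
    {w : HeightOneSpectrum (𝓞 (LL M))} (hw : und ℚ w = v) {b : Fin n → ZMod M} (hb : Good b)
    {k u : ℕ} (hk : n + 1 = u + 2 * k) :
    ‖Jn k b w‖ ^ 2 = (Ideal.absNorm w.asIdeal : ℝ) ^ u := by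
  obtain ⟨ζ, hζ⟩ := exists_zeta M
  have h1 := norm_Pv (n := n) hζ (ff M) w (nat_notMem hv hw) b
  rw [cnt_good hb, hk, pow_add] at h1
  unfold Jn
  rw [norm_div, norm_mul, norm_sg, one_mul, norm_pow, Complex.norm_natCast, div_pow, h1, ← pow_mul,
    mul_comm k 2]
  have h2 : (Ideal.absNorm w.asIdeal : ℝ) ≠ 0 := by
    rw [absNorm_w hv hw]
    exact_mod_cast pow_ne_zero _ (absNorm_prime v).ne_zero
  exact mul_div_cancel_right₀ _ (pow_ne_zero _ h2)

theorem norm_ev (h1 : ∀ i, 1 ≤ nn i) (hv : (Ideal.absNorm v.asIdeal).Coprime L)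
    (A : Finset (Fin r)) {z : ℂ} (hz : z ∈ ev nn mm L v A) :
    ‖z‖ ^ 2 = (Ideal.absNorm v.asIdeal : ℝ) ^ (∑ i ∈ A, (nn i - 1)) := by
  unfold ev at hz
  split_ifs at hz with hA
  · obtain ⟨M, _, hz⟩ := Multiset.mem_sum.1 hz
    obtain ⟨ω, _, hz⟩ := Multiset.mem_sum.1 hz
    split_ifs at hz with hP
    · obtain ⟨w, _, hz⟩ := Multiset.mem_sum.1 hz
      have hvM := coprime_level hv M
      have h3 := pow_rts (fo_ne hvM) hz
      have h2 := norm_Jn hvM w.2 (rep ω).2.1 (k := A.card) (u := ∑ i ∈ A, (nn i - 1))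
        (by rw [nA_succ nn hA, sum_pr h1])
      rw [← h3, norm_pow, absNorm_w hvM w.2] at h2
      push_cast at h2
      have h4 : (‖z‖ ^ 2) ^ fo v M.1 =
          ((Ideal.absNorm v.asIdeal : ℝ) ^ (∑ i ∈ A, (nn i - 1))) ^ fo v M.1 := by
        rw [← pow_mul, mul_comm 2, pow_mul, h2, ← pow_mul, ← pow_mul, mul_comm]
      exact (pow_left_inj₀ (by positivity) (by positivity) (fo_ne hvM)).1 h4
    · exact absurd hz (Multiset.notMem_zero z)
  · rw [Multiset.mem_singleton] at hz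
    rw [not_nonempty_iff_eq_empty] at hA
    rw [hz, hA]
    simp

/-- the eigenvalues on the cohomology of degree `k` -/
noncomputable def bt (nn mm : Fin r → ℕ) (L : ℕ) (v : HeightOneSpectrum (𝓞 ℚ)) (k : ℕ) :
    Multiset ℂ :=
  ∑ c ∈ univ.filter (fun c : Sy nn => dg c = k),
    (ev nn mm L v (pr c)).map fun z => (Ideal.absNorm v.asIdeal : ℂ) ^ tw c * z

theorem norm_bt (h1 : ∀ i, 1 ≤ nn i) (hv : (Ideal.absNorm v.asIdeal).Coprime L) (k : ℕ) {z : ℂ}
    (hz : z ∈ bt nn mm L v k) : ‖z‖ = (Ideal.absNorm v.asIdeal : ℝ) ^ ((k : ℝ) / 2) := by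
  have hp : (0 : ℝ) < Ideal.absNorm v.asIdeal := by exact_mod_cast (absNorm_prime v).pos
  unfold bt at hz
  obtain ⟨c, hc, hz⟩ := Multiset.mem_sum.1 hz
  rw [mem_filter] at hc
  obtain ⟨y, hy, rfl⟩ := Multiset.mem_map.1 hz
  have h2 := norm_ev h1 hv (pr c) hy
  have h3 : ‖(Ideal.absNorm v.asIdeal : ℂ) ^ tw c * y‖ ^ 2 = (Ideal.absNorm v.asIdeal : ℝ) ^ k := by
    rw [norm_mul, mul_pow, h2, norm_pow, Complex.norm_natCast, ← pow_mul, ← pow_add, ← hc.2,
      dg_eq, mul_comm (tw c) 2, add_comm]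
  rw [← Real.sqrt_sq (norm_nonneg _), h3, Real.sqrt_eq_rpow, ← Real.rpow_natCast,
    ← Real.rpow_mul hp.le]
  congr 1
  ring

theorem pow_bt (k e : ℕ) : ((bt nn mm L v k).map fun z => z ^ e).sum =
    ∑ c ∈ univ.filter (fun c : Sy nn => dg c = k),
      ((Ideal.absNorm v.asIdeal : ℂ) ^ e) ^ tw c *
        ((ev nn mm L v (pr c)).map fun z => z ^ e).sum := by
  unfold bt
  rw [sum_map_sum]
  refine sum_congr rfl fun c _ => ?_
  rw [Multiset.map_map, ← Multiset.sum_map_mul_left]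
  congr 1
  refine Multiset.map_congr rfl fun z _ => ?_
  simp only [Function.comp_apply]
  rw [mul_pow, ← pow_mul, ← pow_mul, mul_comm e]

theorem alt_bt (h1 : ∀ i, 1 ≤ nn i) (e : ℕ) :
    ∑ k ∈ range (2 * (∑ i, (nn i - 1)) + 1),
      (-1 : ℂ) ^ k * ((bt nn mm L v k).map fun z => z ^ e).sum =
    ∑ c : Sy nn, ((Ideal.absNorm v.asIdeal : ℂ) ^ e) ^ tw c *
      (sgA nn (pr c) * ((ev nn mm L v (pr c)).map fun z => z ^ e).sum) := by
  rw [← sum_fiberwise_of_maps_to (s := univ) (t := range (2 * (∑ i, (nn i - 1)) + 1))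
    (g := fun c : Sy nn => dg c) (fun c _ => mem_range.2 (Nat.lt_succ_of_le (dg_le c)))]
  refine sum_congr rfl fun k _ => ?_
  rw [pow_bt, mul_sum]
  refine sum_congr rfl fun c hc => ?_
  rw [← sgA_dg h1 c, (mem_filter.1 hc).2]
  ring

/-! ### the number of the points -/

section pts

variable {κ : Type} [Field κ] [Fintype κ] [DecidableEq κ] {e : ℕ}

theorem prod_ev (hL : 0 < L) (hm : ∀ i, 0 < mm i) (hmL : ∀ i, mm i ∣ L)
    (hv : (Ideal.absNorm v.asIdeal).Coprime L)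
    [CharP κ (Ideal.absNorm v.asIdeal)] (he : Fintype.card κ = Ideal.absNorm v.asIdeal ^ e)
    (φ : 𝓞 ℚ →+* κ) (S : Fin r → ℂ)
    (hS : ∀ i, (cone (fermat (nn i) (mm i)) φ : ℂ) = ((Fintype.card κ : ℂ) - 1) *
      (∑ j ∈ range (nn i), (Fintype.card κ : ℂ) ^ j + S i)) (A : Finset (Fin r)) :
    ∏ i ∈ A, S i = sgA nn A * ((ev nn mm L v A).map fun z => z ^ e).sum := by
  classical
  by_cases hA : A.Nonempty
  · have hq0 : (Fintype.card κ : ℂ) ≠ 0 := by exact_mod_cast Fintype.card_ne_zero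
    have hq1 : (Fintype.card κ : ℂ) - 1 ≠ 0 := by
      rw [sub_ne_zero]
      have : Fintype.card κ ≠ 1 := Fintype.one_lt_card.ne'
      exact_mod_cast this
    obtain ⟨d, hd⟩ : ∃ d, d = (Fintype.card κ - 1).gcd L := ⟨_, rfl⟩
    have hd0 : NeZero d := ⟨by rw [hd]; exact (Nat.gcd_pos_of_pos_right _ hL).ne'⟩
    have hdq : d ∣ Fintype.card κ - 1 := by rw [hd]; exact Nat.gcd_dvd_left _ _
    obtain ⟨T, hT⟩ := MulChar.exists_mulChar_orderOf κ hdq
      (Complex.isPrimitiveRoot_exp d (NeZero.ne d))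
    obtain ⟨d', hd'⟩ : ∃ d' : Fin r → ℕ, d' = fun i => (Fintype.card κ - 1).gcd (mm i) := ⟨_, rfl⟩
    have hd'i : ∀ i, d' i = (Fintype.card κ - 1).gcd (mm i) := fun i => by rw [hd']
    have hd'0 : ∀ i, NeZero (d' i) := fun i => ⟨by
      rw [hd'i]; exact (Nat.gcd_pos_of_pos_right _ (hm i)).ne'⟩
    have hdd : ∀ i, d' i ∣ d := fun i => by
      rw [hd, hd'i]; exact Nat.gcd_dvd_gcd_of_dvd_right _ (hmL i)
    have hTi : ∀ i, orderOf (T ^ (d / d' i)) = d' i := by
      intro i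
      obtain ⟨j, hj⟩ := hdd i
      have hj0 : j ≠ 0 := by
        rintro rfl
        exact NeZero.ne d (by rw [hj, mul_zero])
      have h5 : d / d' i = j := by
        rw [hj]; exact Nat.mul_div_cancel_left _ (Nat.pos_of_ne_zero (NeZero.ne (d' i)))
      rw [h5, orderOf_pow, hT]
      have h6 : d.gcd j = j := Nat.gcd_eq_right ⟨d' i, by rw [Nat.mul_comm]; exact hj⟩
      rw [h6]
      exact Nat.div_eq_of_eq_mul_left (Nat.pos_of_ne_zero hj0) hj
    have hSi : ∀ i, (Fintype.card κ : ℂ) * S i =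
        ∑ b : Fin (nn i) → ZMod (d' i), if Good b then PP (T ^ (d / d' i)) b else 0 := by
      intro i
      have h1 := card_fermat (hm i).ne' (hd'i i) (hTi i) (nn i)
      have h2 : ((univ.filter fun u : Fin (nn i + 1) → κ => ∑ x, u x ^ mm i = 0).card : ℂ) =
          (cone (fermat (nn i) (mm i)) φ : ℂ) + 1 := by
        rw [← cone_eq (hm i) φ]
        push_cast
        ring
      rw [h2, hS i] at h1
      have h3 := geom_sum_mul (Fintype.card κ : ℂ) (nn i)
      apply mul_left_cancel₀ hq1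
      rw [pow_succ] at h1
      linear_combination h1 - (Fintype.card κ : ℂ) * h3
    have h1 := prod_factors (nn := nn) (mm := mm) hd hmL hT hA d' hd'i
      (fun i => T ^ (d / d' i)) (fun i => rfl)
    rw [← prod_congr rfl fun i _ => hSi i, prod_mul_distrib, prod_const] at h1
    have h2 := sum_all (fam nn mm hA) A.card hL hv he hd hT
    have h3 : (∑ b : Fin (nA nn A) → ZMod d,
        if Good b ∧ (fam nn mm hA).P b then sg (nA nn A) * PP T b else 0) =
        sg (nA nn A) * ∑ b : Fin (nA nn A) → ZMod d,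
          if Good b ∧ (fam nn mm hA).P b then PP T b else 0 := by
      rw [mul_sum]
      exact sum_congr rfl fun b _ => by rw [mul_ite, mul_zero]
    rw [h3, ← h1, ← pow_ev hv e hA] at h2
    rw [sgA_eq hA]
    apply mul_left_cancel₀ (pow_ne_zero A.card hq0)
    have h4 := sg_sq (nA nn A)
    linear_combination (sg (nA nn A)) * h2 - ((Fintype.card κ : ℂ) ^ A.card * ∏ i ∈ A, S i) * h4
  · rw [not_nonempty_iff_eq_empty] at hA
    subst hA
    unfold ev sgA
    rw [dif_neg Finset.not_nonempty_empty]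
    simp

/-- **The product of the numbers of points.** -/
theorem points_prod (h1 : ∀ i, 1 ≤ nn i) (hL : 0 < L) (hm : ∀ i, 0 < mm i) (hmL : ∀ i, mm i ∣ L)
    (hv : (Ideal.absNorm v.asIdeal).Coprime L)
    [CharP κ (Ideal.absNorm v.asIdeal)] (he : Fintype.card κ = Ideal.absNorm v.asIdeal ^ e)
    (φ : 𝓞 ℚ →+* κ) :
    ∏ i, (cone (fermat (nn i) (mm i)) φ : ℂ) = ((Fintype.card κ : ℂ) - 1) ^ r *
      ∑ k ∈ range (2 * (∑ i, (nn i - 1)) + 1),
        (-1 : ℂ) ^ k * ((bt nn mm L v k).map fun z => z ^ e).sum := by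
  have hq1 : (Fintype.card κ : ℂ) - 1 ≠ 0 := by
    rw [sub_ne_zero]
    have : Fintype.card κ ≠ 1 := Fintype.one_lt_card.ne'
    exact_mod_cast this
  obtain ⟨S, hSdef⟩ : ∃ S : Fin r → ℂ, S = fun i => (cone (fermat (nn i) (mm i)) φ : ℂ) /
    ((Fintype.card κ : ℂ) - 1) - ∑ j ∈ range (nn i), (Fintype.card κ : ℂ) ^ j := ⟨_, rfl⟩
  have hS : ∀ i, (cone (fermat (nn i) (mm i)) φ : ℂ) = ((Fintype.card κ : ℂ) - 1) *
      (∑ j ∈ range (nn i), (Fintype.card κ : ℂ) ^ j + S i) := by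
    intro i
    rw [hSdef]
    simp only
    rw [add_sub_cancel, mul_div_cancel₀ _ hq1]
  rw [prod_congr rfl fun i _ => hS i, prod_mul_distrib, prod_const, card_univ, Fintype.card_fin,
    prod_sy, alt_bt h1]
  congr 1
  refine sum_congr rfl fun c _ => ?_
  rw [prod_ev hL hm hmL hv he φ S hS, he]
  push_cast
  ring

end pts

/-- **Products of Fermat varieties**: at almost all prime numbers the number of points is the product of
the numbers of points of the Fermat varieties, over all finite fields. -/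
def IsProd (nn mm : Fin r → ℕ) {n : ℕ} (eqs : Set (MvPolynomial (Fin n) (𝓞 ℚ))) : Prop :=
  ∀ᶠ v : HeightOneSpectrum (𝓞 ℚ) in cofinite, ∀ (κ : Type) [Field κ] [Finite κ] (φ : 𝓞 ℚ →+* κ),
    RingHom.ker φ = v.asIdeal → (cone eqs φ : ℤ) * ((Nat.card κ : ℤ) - 1) ^ r =
      ((Nat.card κ : ℤ) - 1) * ∏ i, (cone (fermat (nn i) (mm i)) φ : ℤ)

/-- **The Frobenius eigenvalues.** -/
theorem isFrobenius_prod (h1 : ∀ i, 1 ≤ nn i) (hL : 0 < L) (hm : ∀ i, 0 < mm i)
    (hmL : ∀ i, mm i ∣ L) {n : ℕ} {eqs : Set (MvPolynomial (Fin n) (𝓞 ℚ))}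
    (hX : IsProd nn mm eqs) : ∀ᶠ v : HeightOneSpectrum (𝓞 ℚ) in cofinite, ∀ (k : ℕ) {N : ℕ}
      {α : Fin N → ℂ}, bt nn mm L v k = univ.val.map α →
      IsFrobenius (K := ℚ) (F := ℚ) eqs (∑ i, (nn i - 1)) k v α := by
  classical
  filter_upwards [hX, eventually_cop hL] with v hXv hv k N α hα
  refine ⟨bt nn mm L v, hα, fun k z hz => norm_bt h1 hv k hz, ?_⟩
  intro κ _ _ φ e hk hc
  have := Fintype.ofFinite κ
  have h2 : ∀ ψ : 𝓞 ℚ →+* 𝓞 ℚ, (∀ x, ψ x = x) → φ.comp ψ = φ := fun ψ hψ =>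
    RingHom.ext fun x => by rw [RingHom.comp_apply, hψ]
  rw [h2 _ (fun x => RingOfIntegers.ext rfl)]
  have : Fact (Ideal.absNorm v.asIdeal).Prime := ⟨absNorm_prime v⟩
  have hp0 : ((Ideal.absNorm v.asIdeal : ℕ) : κ) = 0 := by
    have h2 : ((Ideal.absNorm v.asIdeal : ℕ) : 𝓞 ℚ) ∈ RingHom.ker φ := by
      rw [hk]; exact absNorm_mem v
    rwa [RingHom.mem_ker, map_natCast] at h2
  have : CharP κ (Ideal.absNorm v.asIdeal) := by
    have h1 := ringChar.spec κ (Ideal.absNorm v.asIdeal)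
    have h2 : ringChar κ ∣ Ideal.absNorm v.asIdeal := (h1).1 hp0
    have h3 : ringChar κ ≠ 1 := CharP.ringChar_ne_one
    have h4 : ringChar κ = Ideal.absNorm v.asIdeal :=
      ((Nat.dvd_prime Fact.out).1 h2).resolve_left h3
    rw [← h4]
    exact ringChar.charP κ
  have h3 := hXv κ φ hk
  rw [Nat.card_eq_fintype_card] at hc h3
  have h4 := points_prod (v := v) (mm := mm) h1 hL hm hmL hv hc φ
  have h5 : (cone eqs φ : ℂ) * ((Fintype.card κ : ℂ) - 1) ^ r =
      ((Fintype.card κ : ℂ) - 1) * ∏ i, (cone (fermat (nn i) (mm i)) φ : ℂ) := by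
    exact_mod_cast h3
  have hq1 : (Fintype.card κ : ℂ) - 1 ≠ 0 := by
    rw [sub_ne_zero]
    have : Fintype.card κ ≠ 1 := Fintype.one_lt_card.ne'
    exact_mod_cast this
  rw [h4] at h5
  have h6 : (Fintype.card κ : ℂ) = (Ideal.absNorm v.asIdeal : ℂ) ^ e := by rw [hc]; push_cast; rfl
  rw [← h6]
  apply mul_right_cancel₀ (pow_ne_zero r hq1)
  rw [h5]
  ring

end ev

end Run7.h365.PF
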