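import Pool.Agent.Run7.h365.FV.Tate

/-!
# The relation of Hasse and Davenport with signs, and families of characters
-/

set_option autoImplicit false
set_option linter.unusedSectionVars false
set_option linter.style.haveILetI false

namespace Run7.h365.PF

open Finset NumberField IsDedekindDomain Run7.h365.FV
open Pool.Agent.Y145.KS (psi psi_apply psi_ne_one)
open Pool.Agent.N883.C (chE chE_apply chE_mul chE_one chE_ne_one gauss_E)

/-- the sign -/
noncomputable def sg (n : ℕ) : ℂ := (-1) ^ (n + 1)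

theorem sg_sq (n : ℕ) : sg n * sg n = 1 := by
  unfold sg
  rw [← pow_add, ← two_mul]
  exact (even_two_mul _).neg_one_pow

theorem sg_odd {n : ℕ} (hn : Odd n) : sg n = 1 := hn.add_one.neg_one_pow

theorem sg_ne (n : ℕ) : sg n ≠ 0 := left_ne_zero_of_mul_eq_one (sg_sq n)

theorem norm_sg (n : ℕ) : ‖sg n‖ = 1 := by
  unfold sg
  rw [norm_pow, norm_neg, norm_one, one_pow]

section hd

variable {k E : Type} [Field k] [Fintype k] [DecidableEq k] [Field E] [Fintype E] [DecidableEq E]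
  [Algebra k E] {N n : ℕ} [NeZero N]

/-- **Hasse and Davenport** -/
theorem PP_chE' {χ : MulChar k ℂ} (hχ : orderOf χ = N) (b : Fin n → ZMod N) :
    sg n * PP (chE χ E) b = (sg n * PP χ b) ^ Module.finrank k E := by
  haveI : Module.Finite k E := Module.Finite.of_finite
  have hr : 0 < Module.finrank k E := Module.finrank_pos
  obtain ⟨ψ, hψ⟩ : ∃ ψ : AddChar k ℂ, ψ.IsPrimitive :=
    ⟨_, AddChar.FiniteField.primitiveChar_to_Complex_isPrimitive k⟩
  have hψ1 : ψ ≠ 1 := by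
    have := hψ one_ne_zero
    rwa [AddChar.mulShift_one] at this
  have hψE : (psi ψ E).IsPrimitive := AddChar.IsPrimitive.of_ne_one (psi_ne_one hψ1 E)
  rw [PP_eq hχ hψ, PP_eq ((orderOf_chE χ).trans hχ) hψE]
  simp_rw [chE_pow, gauss_E _ hψ1]
  rw [prod_mul_distrib, prod_const, card_univ, Fintype.card_fin, mul_pow, mul_pow, ← prod_pow]
  obtain ⟨t, ht⟩ : ∃ t, Module.finrank k E = t + 1 := ⟨Module.finrank k E - 1, by omega⟩
  rw [ht, Nat.add_sub_cancel]
  have h1 : sg n * ((-1 : ℂ) ^ t * ((-1) ^ t) ^ n) = sg n ^ (t + 1) := by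
    unfold sg
    rw [← pow_succ', ← pow_mul, ← pow_mul, ← pow_add]
    congr 1
    ring
  linear_combination (gaussSum (χ ^ (-∑ i, b i).val) ψ ^ (t + 1) *
    ∏ i, gaussSum (χ ^ (b i).val) ψ ^ (t + 1)) * h1

end hd

section field

variable {F : Type} [Field F] [NumberField F] {N n : ℕ} [NeZero N] {ζ : 𝓞 F}
  {κ : Type} [Field κ] [Fintype κ] [DecidableEq κ]

/-- the Jacobi sum over an extension of the residue field -/
theorem PP_theta' (hζ : IsPrimitiveRoot ζ N) {f : 𝓞 F →+* ℂ}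
    (hf : Function.Injective f) {θ : 𝓞 F →+* κ} (hN : (N : κ) ≠ 0) {w : HeightOneSpectrum (𝓞 F)}
    (hw : RingHom.ker θ = w.asIdeal) {r : ℕ} (hr : Fintype.card κ = Ideal.absNorm w.asIdeal ^ r)
    {T : MulChar κ (𝓞 F)} (hT : IsRes N θ T) (b : Fin n → ZMod N) :
    sg n * PP (T.ringHomComp f) b = (sg n * f (Pv N n w b)) ^ r := by
  obtain ⟨k, _, _, _, φ, hφ, hker, hcard⟩ := exists_model w
  have hNw : (N : 𝓞 F) ∉ w.asIdeal := by
    rw [← hw, RingHom.mem_ker, map_natCast]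
    exact hN
  have hNk := ne_zero_of_ker hNw hker
  obtain ⟨χ, hχ⟩ := exists_isRes hζ φ hNk
  rw [isP_Pv (n := n) hζ w hNw k φ hφ hker χ hχ]
  obtain ⟨j, hj⟩ := exists_factor hφ (hker.trans hw.symm)
  letI : Algebra k κ := j.toAlgebra
  have halg : ∀ x, algebraMap k κ x = j x := fun _ => rfl
  have hfin : Module.finrank k κ = r := by
    have h1 : Fintype.card κ = Fintype.card k ^ Module.finrank k κ := Module.card_eq_pow_finrank
    rw [hr, hcard] at h1
    have h2 : 2 ≤ Ideal.absNorm w.asIdeal := by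
      rw [← hcard]; exact Fintype.one_lt_card
    exact (Nat.pow_right_injective h2 h1).symm
  have h1 : T.ringHomComp f = chE (χ.ringHomComp f) κ := by
    refine MulChar.ext fun x => ?_
    rw [MulChar.ringHomComp_apply, chE_apply, MulChar.ringHomComp_apply]
    congr 1
    have hx := x.ne_zero
    have hx' : Algebra.norm k (x : κ) ≠ 0 := by
      rw [Ne, Algebra.norm_eq_zero_iff]; exact hx
    refine root_inj hζ θ hN ?_ ?_ ?_
    · rw [← chi_pow hx, ← hT.1, pow_orderOf_eq_one, MulChar.one_apply_coe]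
    · rw [← chi_pow hx', ← hχ.1, pow_orderOf_eq_one]
      exact MulChar.one_apply_coe (Units.mk0 _ hx')
    · rw [hT.2 _ hx, ← hj, RingHom.comp_apply, hχ.2 _ hx', map_pow, ← halg,
        FiniteField.algebraMap_norm_eq_pow, ← pow_mul, Nat.card_eq_fintype_card,
        Nat.card_eq_fintype_card]
      congr 1
      have hdk : N ∣ Fintype.card k - 1 := dvd_card hζ φ hNk
      have hkE : Fintype.card k - 1 ∣ Fintype.card κ - 1 := by
        rw [hr, hcard]
        simpa using Nat.sub_dvd_pow_sub_pow (Ideal.absNorm w.asIdeal) 1 r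
      obtain ⟨u, hu⟩ := hdk
      obtain ⟨v, hv⟩ := hkE
      have hk0 : 0 < Fintype.card k - 1 := Nat.sub_pos_of_lt Fintype.one_lt_card
      rw [hv, Nat.mul_div_cancel_left _ hk0, hu, mul_assoc,
        Nat.mul_div_cancel_left _ (Nat.pos_of_ne_zero (NeZero.ne N)),
        Nat.mul_div_cancel_left _ (Nat.pos_of_ne_zero (NeZero.ne N)), mul_comm]
  rw [h1, PP_chE' ((orderOf_comp hf χ).trans hχ.1), hfin, PP_map]

end field

section cyc

open IsCyclotomicExtension.Rat (galEquivZMod galEquivZMod_smul_of_pow_eq galEquivZMod_stabilizer)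
open scoped Pointwise

variable {F : Type} [Field F] [NumberField F] {N n : ℕ} [NeZero N]
  [IsCyclotomicExtension {N} ℚ F] {ζ : 𝓞 F} {κ : Type} [Field κ] [Fintype κ] [DecidableEq κ]
  {p : ℕ} [Fact p.Prime] [CharP κ p]

/-- **The sum of the Jacobi sums of the conjugates of `b`.** -/
theorem sum_units' (hζ : IsPrimitiveRoot ζ N) (f : F →+* ℂ) (hp : p.Coprime N)
    {T : MulChar κ ℂ} (hT : orderOf T = N) (b : Fin n → ZMod N) {r : ℕ}
    (hr : Fintype.card κ = (p ^ orderOf (p : ZMod N)) ^ r)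
    (s : Finset (HeightOneSpectrum (𝓞 F))) (hs : ∀ w, w ∈ s ↔ (p : 𝓞 F) ∈ w.asIdeal) :
    ∑ c : (ZMod N)ˣ, sg n * PP T (fun i => (c : ZMod N) * b i) =
      ∑ w ∈ s, (orderOf (p : ZMod N) : ℂ) * (sg n * f (Pv N n w b : 𝓞 F)) ^ r := by
  classical
  -- a prime above `p`
  obtain ⟨w₀, hw₀⟩ := exists_above (F := F) p
  obtain ⟨θ, hθ⟩ := exists_theta (κ := κ) hw₀ (r := r) (by rw [absNorm_prm hw₀ hp, hr])
  have hNκ : (N : κ) ≠ 0 := by
    intro h
    rw [CharP.cast_eq_zero_iff κ p] at h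
    exact ((Nat.Prime.coprime_iff_not_dvd Fact.out).1 hp) h
  obtain ⟨T₀, hT₀⟩ := exists_isRes hζ θ hNκ
  set f₁ : 𝓞 F →+* ℂ := f.comp (algebraMap (𝓞 F) F) with hf₁
  have hf₁i : Function.Injective f₁ := f.injective.comp RingOfIntegers.coe_injective
  have hT₁ : orderOf (T₀.ringHomComp f₁) = N := (orderOf_comp hf₁i _).trans hT₀.1
  obtain ⟨c₀, hc₀⟩ := exists_unit_pow hT₁ hT
  -- the values
  have h1 : ∀ σ : Gal(F/ℚ), sg n * PP (T₀.ringHomComp f₁)
      (fun i => (((cu N σ)⁻¹ : (ZMod N)ˣ) : ZMod N) * b i) =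
      (sg n * f₁ (Pv N n (kp p (θ.comp (act σ))) b)) ^ r := by
    intro σ
    have h2 : IsRes N (θ.comp (act σ)) (T₀.ringHomComp (act σ⁻¹)) := by
      refine ⟨(orderOf_comp (act_inj _) _).trans hT₀.1, fun x hx => ?_⟩
      rw [MulChar.ringHomComp_apply, RingHom.comp_apply, ← hT₀.2 _ hx]
      congr 1
      rw [act_apply, act_apply, smul_inv_smul]
    have h3 := PP_theta' (n := n) hζ hf₁i hNκ (w := kp p (θ.comp (act σ))) rfl (r := r)
      (by rw [absNorm_prm (mem_kp _) hp, hr]) h2 b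
    rw [← h3, act_chi hT₀.1, ← MulChar.ringHomComp_pow,
      PP_pow hT₁ (cu N σ⁻¹).isUnit, cu_inv]
  have h2 : ∀ g : (ZMod N)ˣ → ℂ, ∑ c : (ZMod N)ˣ, g c = ∑ σ : Gal(F/ℚ), g (cu N σ)⁻¹ := by
    intro g
    rw [← Equiv.sum_comp (Equiv.inv (ZMod N)ˣ) g]
    exact (Fintype.sum_equiv (galEquivZMod N F).toEquiv _ _ fun σ => rfl).symm
  have h3 : ∑ c : (ZMod N)ˣ, sg n * PP T (fun i => (c : ZMod N) * b i) =
      ∑ c : (ZMod N)ˣ, sg n * PP (T₀.ringHomComp f₁) (fun i => (c : ZMod N) * b i) := by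
    rw [← Equiv.sum_comp (Equiv.mulLeft c₀)
      (fun c : (ZMod N)ˣ => sg n * PP (T₀.ringHomComp f₁) (fun i => (c : ZMod N) * b i))]
    refine sum_congr rfl fun c _ => ?_
    rw [hc₀, PP_pow hT₁ c₀.isUnit]
    simp only [Equiv.coe_mulLeft, Units.val_mul, mul_assoc]
  rw [h3, h2 (fun c => sg n * PP (T₀.ringHomComp f₁) (fun i => (c : ZMod N) * b i))]
  rw [sum_congr rfl fun σ _ => h1 σ,
    ← sum_fiberwise_of_maps_to (s := univ) (t := s) (g := fun σ : Gal(F/ℚ) => kp p (θ.comp (act σ)))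
      (fun σ _ => (hs _).2 (mem_kp _))]
  refine sum_congr rfl fun w hw => ?_
  rw [sum_congr rfl (g := fun _ => (sg n * f₁ (Pv N n w b)) ^ r)
    (fun σ hσ => by rw [(mem_filter.1 hσ).2]),
    sum_const, card_fib θ hp ((hs w).1 hw), nsmul_eq_mul]
  rfl

end cyc

variable {n m M : ℕ}

/-- the normalised Jacobi sum, with sign -/
noncomputable def Jn [NeZero M] (k : ℕ) (b : Fin n → ZMod M) (w : HeightOneSpectrum (𝓞 (LL M))) :
    ℂ :=
  sg n * ff M (Pv M n w b : 𝓞 (LL M)) / (Ideal.absNorm w.asIdeal : ℂ) ^ k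

/-- a family of tuples -/
structure Fam (n : ℕ) where
  P : ∀ {M : ℕ}, (Fin n → ZMod M) → Prop
  map : ∀ {M M' : ℕ} (φ : ZMod M →+ ZMod M'), Function.Injective φ → ∀ b : Fin n → ZMod M,
    P (fun i => φ (b i)) ↔ P b

theorem Fam.smul {Fa : Fam n} (c : (ZMod M)ˣ) (b : PT n M) : Fa.P (c • b).1 ↔ Fa.P b.1 :=
  Fa.map _ (mul_unit_inj c) b.1

section loc

variable {v : HeightOneSpectrum (𝓞 ℚ)} {κ : Type} [Field κ] [Fintype κ] [DecidableEq κ] {e : ℕ}

open Classical in
/-- the sum over the places above `v` -/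
noncomputable def tr (Fa : Fam n) (k : ℕ) (v : HeightOneSpectrum (𝓞 ℚ)) (e M : ℕ) [NeZero M] : ℂ :=
  ∑ ω : Orb n M, if Fa.P (rep ω).1 then
    ∑ w : {w : HeightOneSpectrum (𝓞 (LL M)) // und ℚ w = v},
      (if fo v M ∣ e then (fo v M : ℂ) * Jn k (rep ω).1 w.1 ^ (e / fo v M) else 0) else 0

open Classical in
theorem level_eval' [NeZero M] (Fa : Fam n) (k : ℕ) (hv : (Ideal.absNorm v.asIdeal).Coprime M)
    [CharP κ (Ideal.absNorm v.asIdeal)] (he : Fintype.card κ = Ideal.absNorm v.asIdeal ^ e)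
    {T : MulChar κ ℂ} (hT : orderOf T = M) (hM : M ∣ Fintype.card κ - 1) :
    (∑ b : PT n M, if Fa.P b.1 then sg n * PP T b.1 else 0) =
      (Fintype.card κ : ℂ) ^ k * tr Fa k v e M := by
  have : Fact (Ideal.absNorm v.asIdeal).Prime := ⟨absNorm_prime v⟩
  have hfe := (dvd_iff_fo he).1 hM
  obtain ⟨r, hr⟩ := hfe
  have hf0 := fo_ne hv
  have hdiv : e / fo v M = r := by rw [hr, Nat.mul_div_cancel_left _ (Nat.pos_of_ne_zero hf0)]
  obtain ⟨ζ, hζ⟩ := exists_zeta M
  unfold tr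
  rw [sum_orbits (fun b : PT n M => if Fa.P b.1 then sg n * PP T b.1 else 0), mul_sum]
  refine sum_congr rfl fun ω _ => ?_
  by_cases hω : Fa.P (rep ω).1
  · rw [if_pos hω, sum_congr rfl fun c _ => if_pos ((Fam.smul c (rep ω)).2 hω)]
    have h1 := sum_units' (n := n) hζ (ff M) hv hT (rep ω).1 (r := r)
      (by rw [he, ← pow_mul]; congr 1) (above M v) mem_above
    have h2 : ∑ c : (ZMod M)ˣ, sg n * PP T (c • rep ω).1 =
        ∑ c : (ZMod M)ˣ, sg n * PP T (fun i => (c : ZMod M) * (rep ω).1 i) := rfl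
    rw [h2, h1]
    unfold above
    rw [sum_map, mul_sum]
    refine sum_congr rfl fun w _ => ?_
    rw [if_pos ⟨r, hr⟩, hdiv]
    change ((fo v M : ℕ) : ℂ) * (sg n * ff M (Pv M n w.1 (rep ω).1 : 𝓞 (LL M))) ^ r = _
    unfold Jn
    rw [absNorm_w hv w.2, he, hr, div_pow]
    have h3 : (((Ideal.absNorm v.asIdeal ^ fo v M : ℕ) : ℂ) ^ k) ^ r ≠ 0 := by
      apply pow_ne_zero
      apply pow_ne_zero
      exact_mod_cast pow_ne_zero _ (absNorm_prime v).ne_zero
    have h4 : (((Ideal.absNorm v.asIdeal ^ (fo v M * r) : ℕ) : ℂ)) ^ k =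
        (((Ideal.absNorm v.asIdeal ^ fo v M : ℕ) : ℂ) ^ k) ^ r := by
      push_cast
      rw [← pow_mul, ← pow_mul, ← pow_mul]
      congr 1
      ring
    rw [h4]
    field_simp
  · rw [if_neg hω, sum_congr rfl fun c _ => if_neg fun h => hω ((Fam.smul c (rep ω)).1 h)]
    simp

end loc

/-! ### the levels -/

section levels

variable {d : ℕ}

open Classical in
theorem sum_levels_fam (Fa : Fam n) [NeZero d] (g : (Fin n → ZMod d) → ℂ) :
    (∑ b, if Good b ∧ Fa.P b then g b else 0) =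
      ∑ M : D d, ∑ b, if (Good b ∧ addOrderOf b = M.1) ∧ Fa.P b then g b else 0 := by
  have h1 := sum_levels (fun b : Fin n → ZMod d => if Fa.P b then g b else 0)
  have h2 : ∀ b : Fin n → ZMod d, (if Good b ∧ Fa.P b then g b else 0) =
      if Good b then (if Fa.P b then g b else 0) else 0 := by
    intro b
    rw [ite_and]
  have h3 : ∀ (M : ℕ) (b : Fin n → ZMod d),
      (if (Good b ∧ addOrderOf b = M) ∧ Fa.P b then g b else 0) =
      if Good b ∧ addOrderOf b = M then (if Fa.P b then g b else 0) else 0 := by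
    intro M b
    rw [ite_and]
  rw [sum_congr rfl fun b _ => h2 b, h1]
  refine sum_congr rfl fun M _ => sum_congr rfl fun b _ => ?_
  rw [h3]

variable {κ : Type} [Field κ] [Fintype κ] [DecidableEq κ]

open Classical in
theorem sum_level_fam (Fa : Fam n) {d M k : ℕ} [NeZero d] [NeZero M] (hk' : d = M * k) (hk : k ≠ 0)
    {T : MulChar κ ℂ} (hT : orderOf T = d) :
    (∑ b : Fin n → ZMod d, if (Good b ∧ addOrderOf b = M) ∧ Fa.P b then PP T b else 0) =
      ∑ b : PT n M, if Fa.P b.1 then PP (T ^ k) b.1 else 0 := by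
  subst hk'
  have h0 : (∑ b : PT n M, if Fa.P b.1 then PP (T ^ k) b.1 else 0) =
      ∑ b : Fin n → ZMod M, if (Good b ∧ addOrderOf b = M) ∧ Fa.P b then PP (T ^ k) b else 0 := by
    rw [← sum_filter, ← sum_filter]
    refine sum_bij (fun (b : PT n M) _ => b.1) ?_ ?_ ?_ ?_
    · intro b hb
      rw [mem_filter] at hb ⊢
      exact ⟨mem_univ _, b.2, hb.2⟩
    · intro b _ b' _ h
      exact Subtype.ext h
    · intro b hb
      exact ⟨⟨b, (mem_filter.1 hb).2.1⟩, mem_filter.2 ⟨mem_univ _, (mem_filter.1 hb).2.2⟩, rfl⟩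
    · intro b _
      rfl
  rw [h0, ← sum_filter, ← sum_filter]
  symm
  refine sum_bij (fun b _ => fun i => emb M k (b i)) ?_ ?_ ?_ ?_
  · intro b hb
    rw [mem_filter] at hb ⊢
    exact ⟨mem_univ _, ⟨(good_map (emb_inj hk) b).2 hb.2.1.1,
      (order_map (emb_inj hk) b).trans hb.2.1.2⟩, (Fa.map _ (emb_inj hk) b).2 hb.2.2⟩
  · intro b _ b' _ h
    funext i
    exact emb_inj hk (congrFun h i)
  · intro b hb
    rw [mem_filter] at hb
    have h1 : ∀ i, ∃ a, emb M k a = b i := by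
      intro i
      apply emb_surj hk
      have h2 := addOrderOf_nsmul_eq_zero b
      rw [hb.2.1.2] at h2
      exact congrFun h2 i
    choose a ha using h1
    have h2 : (fun i => emb M k (a i)) = b := funext ha
    refine ⟨a, ?_, h2⟩
    rw [mem_filter, ← good_map (emb_inj (M := M) hk) a, ← order_map (emb_inj (M := M) hk) a,
      ← Fa.map _ (emb_inj (M := M) hk) a, h2]
    exact ⟨mem_univ _, hb.2⟩
  · intro b _
    exact (PP_emb hk hT b).symm

variable {v : HeightOneSpectrum (𝓞 ℚ)} {e L : ℕ}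

open Classical in
/-- **The sum over all levels.** -/
theorem sum_all (Fa : Fam n) (k : ℕ) (hL : 0 < L) (hv : (Ideal.absNorm v.asIdeal).Coprime L)
    [CharP κ (Ideal.absNorm v.asIdeal)] (he : Fintype.card κ = Ideal.absNorm v.asIdeal ^ e)
    (hd : d = (Fintype.card κ - 1).gcd L) [NeZero d] {T : MulChar κ ℂ} (hT : orderOf T = d) :
    (∑ b : Fin n → ZMod d, if Good b ∧ Fa.P b then sg n * PP T b else 0) =
      (Fintype.card κ : ℂ) ^ k * ∑ M : D L, tr Fa k v e M.1 := by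
  have hdq : d ∣ Fintype.card κ - 1 := by rw [hd]; exact Nat.gcd_dvd_left _ _
  have hdL : d ∣ L := by rw [hd]; exact Nat.gcd_dvd_right _ _
  have hcop : ∀ M, M ∣ L → (Ideal.absNorm v.asIdeal).Coprime M := fun M hM =>
    Nat.Coprime.coprime_dvd_right hM hv
  let H : ℕ → ℂ := fun M => if h : M = 0 then 0 else
    haveI : NeZero M := ⟨h⟩
    tr Fa k v e M
  have hH : ∀ (M : ℕ) [NeZero M], H M = tr Fa k v e M := by
    intro M hM
    exact dif_neg hM.out
  rw [sum_levels_fam Fa]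
  have h3 : ∀ M : D d, (∑ b : Fin n → ZMod d,
      if (Good b ∧ addOrderOf b = M.1) ∧ Fa.P b then sg n * PP T b else 0) =
      (Fintype.card κ : ℂ) ^ k * H M.1 := by
    intro M
    obtain ⟨j, hj⟩ := Nat.dvd_of_mem_divisors M.2
    have hj0 : j ≠ 0 := by
      rintro rfl
      rw [mul_zero] at hj
      exact NeZero.ne d hj
    have hM1 : M.1 ∣ Fintype.card κ - 1 := dvd_trans ⟨j, hj⟩ hdq
    have hTk : orderOf (T ^ j) = M.1 := by
      have h5 : d.gcd j = j := Nat.gcd_eq_right ⟨M.1, by rw [Nat.mul_comm]; exact hj⟩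
      rw [orderOf_pow, hT, h5]
      exact Nat.div_eq_of_eq_mul_left (Nat.pos_of_ne_zero hj0) hj
    have h4 := level_eval' (n := n) Fa k (hcop M.1 (dvd_trans ⟨j, hj⟩ hdL)) he hTk hM1
    rw [hH M.1, ← h4]
    have h5 := sum_level_fam Fa hj hj0 hT
    have h6 : ∀ b : Fin n → ZMod d,
        (if (Good b ∧ addOrderOf b = M.1) ∧ Fa.P b then sg n * PP T b else 0) =
        sg n * if (Good b ∧ addOrderOf b = M.1) ∧ Fa.P b then PP T b else 0 := by
      intro b
      rw [mul_ite, mul_zero]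
    have h7 : ∀ b : PT n M.1, (if Fa.P b.1 then sg n * PP (T ^ j) b.1 else 0) =
        sg n * if Fa.P b.1 then PP (T ^ j) b.1 else 0 := by
      intro b
      rw [mul_ite, mul_zero]
    rw [sum_congr rfl fun b _ => h6 b, ← mul_sum, h5, sum_congr rfl fun b _ => h7 b, ← mul_sum]
  have h3' : ∑ M : D L, tr Fa k v e M.1 = ∑ M ∈ L.divisors, H M := by
    rw [← sum_D (fun M => H M)]
    exact sum_congr rfl fun M _ => (hH M.1).symm
  rw [sum_congr rfl fun M _ => h3 M, sum_D (fun M => (Fintype.card κ : ℂ) ^ k * H M), h3', mul_sum]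
  refine sum_subset (Nat.divisors_subset_of_dvd hL.ne' hdL) fun M hM hM' => ?_
  have hMm := Nat.dvd_of_mem_divisors hM
  have : NeZero M := ⟨(Nat.pos_of_mem_divisors hM).ne'⟩
  rw [hH M]
  have h5 : ¬ fo v M ∣ e := by
    rw [← dvd_iff_fo he]
    intro h6
    apply hM'
    rw [Nat.mem_divisors]
    exact ⟨by rw [hd]; exact Nat.dvd_gcd h6 hMm, NeZero.ne d⟩
  unfold tr
  simp [h5]

end levels

end Run7.h365.PF
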