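import Pool.Agent.Run7.h365.PF.Stm
import Pool.Agent.Run7.h365.FV.All4
import Pool.Agent.Run7.h919.Main
import Pool.Agent.Run7.h365.TD.Fin

/-!
# The rational characters of the products of Fermat varieties are generated
-/

set_option autoImplicit false
set_option linter.unusedSectionVars false

namespace Run7.h365.PF

open Finset Run7.h365.FV
open Pool.Agent.H916R2 (IsHodge)
open Pool.Agent.Y2.Cv (GoodDegree2)
open Run7.h919 (PairBound)
open Run7.h365.TD (FewEntries)

variable {r : ℕ} {nn mm : Fin r → ℕ} {M : ℕ}

/-- The level `M` and the number `N` of the entries: there are at most six entries, or `FewEntries M N`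
(`M` has at most two odd prime factors, or it is not divisible by four and it has at most three odd
prime factors or there are few entries: `N < 30` for odd `M`, `N < 15` for even `M`, or the product of
the numbers `p - 1` for any four odd prime factors `p` of `M` is larger than `16 N` (`32 N` for even
`M`)), or `M` has only small prime factors, or its prime factors are large compared with the square root
of `N`. -/
def Cov (M N : ℕ) : Prop := N ≤ 6 ∨ FewEntries M N ∨ GoodDegree2 M ∨ PairBound M N

section

variable {A : Finset (Fin r)}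

theorem card_Ent (A : Finset (Fin r)) : Fintype.card (Ent nn A) = ∑ i ∈ A, (nn i + 1) := by
  rw [Fintype.card_sigma]
  simp only [Fintype.card_fin]
  exact sum_coe_sort A (fun i => nn i + 1)

/-- **The rational characters.** -/
theorem alg_char (hM : 0 < M) (hA : A.Nonempty) (h2 : ∀ i, 2 ≤ nn i)
    (hev : Even (∑ i ∈ A, (nn i + 1))) {a : Ent nn A → ZMod M} (ha : IsChar nn mm A a)
    (hra : IsRat a) : IsHodge M (univ.val.map a) ∧
      (Cov M (∑ i ∈ A, (nn i + 1)) → IsGenerated M (univ.val.map a)) := by
  have h3 : 3 ≤ ∑ i ∈ A, (nn i + 1) := by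
    obtain ⟨i, hi⟩ := hA
    have := single_le_sum (f := fun i => nn i + 1) (fun _ _ => Nat.zero_le _) hi
    have := h2 i
    omega
  obtain ⟨t, ht⟩ : ∃ t, ∑ i ∈ A, (nn i + 1) = 2 * t + 1 + 1 := by
    obtain ⟨s, hs⟩ := hev
    exact ⟨s - 1, by omega⟩
  have ht0 : 0 < t := by omega
  obtain ⟨e⟩ : Nonempty (Ent nn A ≃ Fin (2 * t + 1 + 1)) :=
    ⟨Fintype.equivFinOfCardEq (by rw [card_Ent, ht])⟩
  obtain ⟨b, hb⟩ : ∃ b : Fin (2 * t + 1 + 1) → ZMod M, b = fun i => a (e.symm i) := ⟨_, rfl⟩
  have hab : ∀ x, b (e x) = a x := by
    intro x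
    rw [hb]
    dsimp only
    rw [Equiv.symm_apply_apply]
  have hmap : ∀ {β : Type} (f : ZMod M → β),
      (univ.val.map fun i => f (b i)) = univ.val.map fun x => f (a x) := by
    intro β f
    have h1 : (univ : Finset (Fin (2 * t + 1 + 1))) = univ.map e.toEmbedding :=
      (map_univ_equiv e).symm
    rw [h1, map_val, Multiset.map_map]
    refine Multiset.map_congr rfl fun x _ => ?_
    change f (b (e x)) = _
    rw [hab]
  have hbc : IsCharacter b := by
    refine ⟨fun i => ?_, ?_, ?_⟩
    · rw [hb]
      exact ha.ne_zero _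
    · rw [← e.sum_comp, Fintype.sum_sigma]
      refine sum_eq_zero fun i _ => ?_
      rw [sum_congr rfl fun j _ => hab ⟨i, j⟩]
      exact ha.sum_eq i
    · refine Eq.trans (addOrderOf_eq_addOrderOf_iff.mpr fun k => ⟨fun h => ?_, fun h => ?_⟩) ha.level
      · funext x
        have := congrFun h (e x)
        simp only [Pi.smul_apply, Pi.zero_apply, hab] at this ⊢
        exact this
      · funext i
        obtain ⟨x, rfl⟩ := e.surjective i
        have := congrFun h x
        simp only [Pi.smul_apply, Pi.zero_apply, hab] at this ⊢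
        exact this
  have hbr : IsRational b := by
    unfold IsRational
    rw [hmap fun z => (z, (1 : ℤ))]
    exact hra
  have hb1 : univ.val.map b = univ.val.map a := hmap fun z => z
  rw [← hb1]
  have hH := isHodge hM hbc hbr
  refine ⟨hH, ?_⟩
  rw [ht]
  rintro (h | h | h | h)
  · rcases (by omega : t = 1 ∨ t = 2) with h1 | h1
    · apply isGenerated_of hM
      refine Pool.Agent.H916R2.Generated.ofBase _ (Or.inl ⟨hH, ?_⟩)
      rw [Run7.h365.FV.card_map, h1]
    · subst h1
      exact isGenerated_six hM hbc hbr
  · exact Run7.h365.TD.isGenerated_few hM ht0 h hbc hbr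
  · exact isGenerated_good hM h hH (ne_zero_map b)
  · refine isGenerated_of hM (Pool.Agent.Y2.generated_mono (fun _ h => h.elim)
      (Run7.h919.main_pairs hM hH (ne_zero_map b) ?_))
    rw [Run7.h365.FV.card_map]
    exact h

end

end Run7.h365.PF
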