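import Pool.Agent.Run7.h365.PF.Sgn
import Pool.Agent.Run7.h365.FV.Rank

/-!
# Products of Jacobi sums
-/

set_option autoImplicit false
set_option linter.unusedSectionVars false

namespace Run7.h365.PF

open Finset NumberField IsDedekindDomain Run7.h365.FV

section full

variable {n M M' : ℕ}

theorem full_map (φ : ZMod M →+ ZMod M') (b : Fin n → ZMod M) (x : Fin (n + 1)) :
    full (fun i => φ (b i)) x = φ (full b x) := by
  refine Fin.cases ?_ (fun j => ?_) x
  · change -∑ i, φ (b i) = φ (-∑ i, b i)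
    rw [map_neg, map_sum]
  · rfl

theorem sum_full (b : Fin n → ZMod M) : ∑ x, full b x = 0 := by
  rw [Fin.sum_univ_succ]
  change -∑ i, b i + ∑ i, b i = 0
  exact neg_add_cancel _

theorem good_iff (b : Fin n → ZMod M) : Good b ↔ ∀ x, full b x ≠ 0 := by
  constructor
  · rintro ⟨h1, h2⟩ x
    refine Fin.cases ?_ (fun j => ?_) x
    · change -∑ i, b i ≠ 0
      rwa [neg_ne_zero]
    · exact h1 j
  · intro h
    refine ⟨fun i => h i.succ, ?_⟩
    have := h 0
    change -∑ i, b i ≠ 0 at this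
    rwa [neg_ne_zero] at this

variable {κ : Type} [Field κ] [Fintype κ] [DecidableEq κ]

theorem PP_full [NeZero M] {T : MulChar κ ℂ} (hT : orderOf T = M) {ψ : AddChar κ ℂ}
    (hψ : ψ.IsPrimitive) (b : Fin n → ZMod M) :
    PP T b = ∏ x, gaussSum (T ^ (full b x).val) ψ := by
  rw [PP_eq hT hψ, Fin.prod_univ_succ]
  rfl

end full

variable {r : ℕ}

/-- the index set of the entries -/
abbrev Ent (nn : Fin r → ℕ) (A : Finset (Fin r)) : Type := Σ i : A, Fin (nn i + 1)

/-- the number of the entries minus one -/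
def nA (nn : Fin r → ℕ) (A : Finset (Fin r)) : ℕ := ∑ i ∈ A, (nn i + 1) - 1

theorem nA_succ (nn : Fin r → ℕ) {A : Finset (Fin r)} (hA : A.Nonempty) :
    nA nn A + 1 = ∑ i ∈ A, (nn i + 1) := by
  unfold nA
  obtain ⟨i, hi⟩ := hA
  have := single_le_sum (f := fun i => nn i + 1) (fun _ _ => Nat.zero_le _) hi
  omega

/-- the enumeration of the entries -/
noncomputable def enu (nn : Fin r → ℕ) {A : Finset (Fin r)} (hA : A.Nonempty) :
    Ent nn A ≃ Fin (nA nn A + 1) :=
  Fintype.equivFinOfCardEq (by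
    rw [Fintype.card_sigma, nA_succ nn hA]
    simp only [Fintype.card_fin]
    exact sum_coe_sort A (fun i => nn i + 1))

/-- the tuples of the products -/
noncomputable def fam (nn mm : Fin r → ℕ) {A : Finset (Fin r)} (hA : A.Nonempty) :
    Fam (nA nn A) where
  P b := ∀ i : A, (∑ j, full b (enu nn hA ⟨i, j⟩) = 0) ∧ ∀ j, mm i • full b (enu nn hA ⟨i, j⟩) = 0
  map φ hφ b := by
    refine forall_congr' fun i => and_congr ?_ (forall_congr' fun j => ?_)
    · simp only [full_map]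
      rw [← map_sum, map_eq_zero_iff φ hφ]
    · rw [full_map, ← map_nsmul, map_eq_zero_iff φ hφ]

section prod

variable {nn mm : Fin r → ℕ} {κ : Type} [Field κ] [Fintype κ] [DecidableEq κ] {L d : ℕ}

/-- the admissible tuples -/
def Adm {n : ℕ} (m : ℕ) (a : Fin (n + 1) → ZMod d) : Prop :=
  (∀ j, a j ≠ 0) ∧ (∑ j, a j = 0) ∧ ∀ j, m • a j = 0

open Classical in
/-- one factor -/
theorem one_factor {n m q : ℕ} [NeZero d] (hd : d = q.gcd L) (hm : m ∣ L) {T : MulChar κ ℂ}
    (hT : orderOf T = d) {ψ : AddChar κ ℂ} (hψ : ψ.IsPrimitive) {d' : ℕ} [NeZero d'] (hd' : d' = q.gcd m)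
    {T' : MulChar κ ℂ} (hT' : T' = T ^ (d / d')) :
    (∑ b : Fin n → ZMod d', if Good b then PP T' b else 0) =
      ∑ a : Fin (n + 1) → ZMod d, if Adm m a then ∏ j, gaussSum (T ^ (a j).val) ψ else 0 := by
  have hdd : d' ∣ d := by rw [hd, hd']; exact Nat.gcd_dvd_gcd_of_dvd_right q hm
  obtain ⟨k, hk⟩ := hdd
  have hd0 : d ≠ 0 := NeZero.ne d
  have hk0 : k ≠ 0 := by rintro rfl; exact hd0 (by rw [hk, mul_zero])
  have hd'0 : d' ≠ 0 := NeZero.ne d'
  have hdk : d / d' = k := by rw [hk]; exact Nat.mul_div_cancel_left _ (Nat.pos_of_ne_zero hd'0)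
  rw [hdk] at hT'
  subst hT'
  have hgm : ∀ x : ZMod d, m • x = 0 → d' • x = 0 := by
    intro x hx
    have h1 : addOrderOf x ∣ m := addOrderOf_dvd_of_nsmul_eq_zero hx
    have h2 : addOrderOf x ∣ d := addOrderOf_dvd_of_nsmul_eq_zero (by
      rw [nsmul_eq_mul, ZMod.natCast_self, zero_mul])
    have h3 : addOrderOf x ∣ q := h2.trans (by rw [hd]; exact Nat.gcd_dvd_left _ _)
    exact addOrderOf_dvd_iff_nsmul_eq_zero.1 (by rw [hd']; exact Nat.dvd_gcd h3 h1)
  subst hk
  rw [← sum_filter, ← sum_filter]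
  refine sum_bij (fun b _ => full fun i => emb d' k (b i)) ?_ ?_ ?_ ?_
  · intro b hb
    rw [mem_filter] at hb ⊢
    refine ⟨mem_univ _, ?_, sum_full _, ?_⟩
    · exact (good_iff _).1 ((good_map (emb_inj hk0) b).2 hb.2)
    · intro j
      rw [full_map, ← map_nsmul]
      have h1 : m • full b j = 0 := by
        obtain ⟨c, hc⟩ : d' ∣ m := by rw [hd']; exact Nat.gcd_dvd_right _ _
        rw [hc, mul_comm, mul_nsmul, nsmul_eq_mul (d' : ℕ), ZMod.natCast_self, zero_mul]
      rw [h1, map_zero]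
  · intro b _ b' _ h
    funext i
    have h1 := congrFun h i.succ
    exact emb_inj hk0 h1
  · intro a ha
    rw [mem_filter] at ha
    obtain ⟨-, h1, h2, h3⟩ := ha
    have h4 : ∀ i : Fin n, ∃ c, emb d' k c = a i.succ := fun i =>
      emb_surj hk0 (hgm _ (h3 i.succ))
    choose c hc using h4
    have h5 : (full fun i => emb d' k (c i)) = a := by
      have h6 : (fun i => emb d' k (c i)) = Fin.tail a := funext hc
      rw [h6]
      exact full_tail h2
    refine ⟨c, ?_, h5⟩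
    rw [mem_filter]
    refine ⟨mem_univ _, ?_⟩
    rw [← good_map (emb_inj (M := d') hk0) c, good_iff, h5]
    exact h1
  · intro b _
    rw [← PP_emb hk0 hT, PP_full hT hψ]

open Classical in
/-- **The product of the sums of Jacobi sums.** -/
theorem prod_factors {q : ℕ} [NeZero d] (hd : d = q.gcd L) (hm : ∀ i, mm i ∣ L)
    {T : MulChar κ ℂ} (hT : orderOf T = d) {A : Finset (Fin r)} (hA : A.Nonempty)
    (d' : Fin r → ℕ) [∀ i, NeZero (d' i)] (hd' : ∀ i, d' i = q.gcd (mm i)) (T' : Fin r → MulChar κ ℂ)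
    (hT' : ∀ i, T' i = T ^ (d / d' i)) :
    ∏ i ∈ A, (∑ b : Fin (nn i) → ZMod (d' i), if Good b then PP (T' i) b else 0) =
      ∑ b : Fin (nA nn A) → ZMod d, if Good b ∧ (fam nn mm hA).P b then PP T b else 0 := by
  obtain ⟨ψ, hψ⟩ : ∃ ψ : AddChar κ ℂ, ψ.IsPrimitive :=
    ⟨_, AddChar.FiniteField.primitiveChar_to_Complex_isPrimitive κ⟩
  rw [prod_congr rfl fun i _ => one_factor (n := nn i) hd (hm i) hT hψ (hd' i) (hT' i),
    ← prod_coe_sort A (fun i => ∑ a : Fin (nn i + 1) → ZMod d,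
      if Adm (mm i) a then ∏ j, gaussSum (T ^ (a j).val) ψ else 0)]
  have h1 := Finset.prod_univ_sum (fun i : A => (univ : Finset (Fin (nn i + 1) → ZMod d)))
    (fun i a => if Adm (mm i) a then ∏ j, gaussSum (T ^ (a j).val) ψ else (0 : ℂ))
  rw [Fintype.piFinset_univ] at h1
  rw [h1]
  have h2 : ∀ a : (∀ i : A, Fin (nn i + 1) → ZMod d),
      (∏ i : A, if Adm (mm i) (a i) then ∏ j, gaussSum (T ^ (a i j).val) ψ else (0 : ℂ)) =
      if ∀ i : A, Adm (mm i) (a i) then ∏ i : A, ∏ j, gaussSum (T ^ (a i j).val) ψ else 0 := by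
    intro a
    by_cases h : ∀ i : A, Adm (mm i) (a i)
    · rw [if_pos h]
      exact prod_congr rfl fun i _ => if_pos (h i)
    · rw [if_neg h]
      push Not at h
      obtain ⟨i, hi⟩ := h
      exact prod_eq_zero (mem_univ i) (if_neg hi)
  rw [sum_congr rfl fun a _ => h2 a, ← sum_filter, ← sum_filter]
  symm
  refine sum_bij (fun b _ => fun i j => full b (enu nn hA ⟨i, j⟩)) ?_ ?_ ?_ ?_
  · intro b hb
    rw [mem_filter] at hb ⊢
    exact ⟨mem_univ _, fun i => ⟨fun j => (good_iff b).1 hb.2.1 _, (hb.2.2 i).1, (hb.2.2 i).2⟩⟩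
  · intro b _ b' _ h
    apply full_inj
    funext x
    obtain ⟨⟨i, j⟩, rfl⟩ := (enu nn hA).surjective x
    exact congrFun (congrFun h i) j
  · intro a ha
    rw [mem_filter] at ha
    obtain ⟨-, ha⟩ := ha
    obtain ⟨a', ha'⟩ : ∃ a' : Fin (nA nn A + 1) → ZMod d, a' = fun x =>
      a ((enu nn hA).symm x).1 ((enu nn hA).symm x).2 := ⟨_, rfl⟩
    have h3 : ∀ i j, a' (enu nn hA ⟨i, j⟩) = a i j := by
      intro i j
      rw [ha']
      dsimp only
      rw [Equiv.symm_apply_apply]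
    have h4 : ∑ x, a' x = 0 := by
      rw [← (enu nn hA).sum_comp, Fintype.sum_sigma]
      refine sum_eq_zero fun i _ => ?_
      rw [sum_congr rfl fun j _ => h3 i j]
      exact (ha i).2.1
    have h5 : full (Fin.tail a') = a' := full_tail h4
    refine ⟨Fin.tail a', ?_, ?_⟩
    · rw [mem_filter]
      refine ⟨mem_univ _, ?_, fun i => ⟨?_, fun j => ?_⟩⟩
      · rw [good_iff, h5]
        intro x
        obtain ⟨⟨i, j⟩, rfl⟩ := (enu nn hA).surjective x
        rw [h3]
        exact (ha i).1 j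
      · rw [h5, sum_congr rfl fun j _ => h3 i j]
        exact (ha i).2.1
      · rw [h5, h3]
        exact (ha i).2.2 j
    · funext i j
      simp only [h5, h3]
  · intro b _
    rw [PP_full hT hψ, ← (enu nn hA).prod_comp, Fintype.prod_sigma]

end prod

end Run7.h365.PF
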