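import Pool.Agent.Run7.h365.FV.Stm
import Pool.Agent.Run7.h365.PF.Bt

/-!
# Products of Fermat varieties over the rational numbers: definitions

`V i`, `i < r`, is the Fermat variety `x_0 ^ m + ... + x_n ^ m = 0`, `n = nn i`, `m = mm i`, of dimension
`n - 1` in the projective space of dimension `n`. Its cohomology is the sum of the lines of the powers
`h ^ j`, `j < n`, of the hyperplane class `h` and of the primitive part, which has the degree `n - 1` and
over the complex numbers is the sum of the lines `V(a)` of the `(n + 1)`-tuples `a` of nonzero residues
modulo `m` with sum zero. By the formula of Künneth the cohomology of the product is the sum of the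
tensor products, one for every symbol `c : Sy nn`: `c i = some j` stands for the line of `h ^ j` and
`c i = none` for the primitive part of the cohomology of `V i` (`dg c` is the degree, `pr c` is the set
of the factors with the primitive part). The tensor product of the lines `V(a i)`, `i ∈ A = pr c`, is
the line of the family `a = (a i)`, a function on the set `Ent nn A` of the pairs `(i, j)`, `i ∈ A`,
`j ≤ nn i`. If `M` is the order of `a`, then the Galois group of the field of `M`-th roots of unity acts
on it by a character, and the lines of the multiples of `a` by the units modulo `M` are conjugate.
-/

set_option autoImplicit false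

namespace Run7.h365.PF

open Pool.Agent.H916K (RationalClass)

variable {r : ℕ}

/-- The characters of exact level `M` of the tensor product of the primitive parts of the cohomology of
the factors `V i`, `i ∈ A`: for every `i` a tuple of `nn i + 1` nonzero residues modulo `M` with sum
zero, which are annihilated by `mm i`, all together of the order `M`. (For the empty set `A` there is
one character, of the level one.) -/
structure IsChar (nn mm : Fin r → ℕ) (A : Finset (Fin r)) {M : ℕ} (a : Ent nn A → ZMod M) : Prop where
  ne_zero : ∀ x, a x ≠ 0
  sum_eq : ∀ i, ∑ j, a ⟨i, j⟩ = 0
  degree : ∀ i j, mm i.1 • a ⟨i, j⟩ = 0
  level : addOrderOf a = M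

/-- The Galois group of the field of `M`-th roots of unity acts trivially on the line of `a`, twisted by
half of its degree: at all but finitely many primes the Frobenius eigenvalue on it, the product
of the Gauss sums `g(χ ^ a_x)` divided by `q` once for every factor, is the power of `q` of this
weight. -/
def IsRat {nn : Fin r → ℕ} {A : Finset (Fin r)} {M : ℕ} (a : Ent nn A → ZMod M) : Prop :=
  RationalClass M (Finset.univ.val.map fun x => (a x, (1 : ℤ)))

/-- The dimension of the space of the classes of degree `2 j` in the cohomology of the product over the
field of rational numbers, twisted by `j`, on which the Galois group acts trivially: the sum, over all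
symbols `c` of degree `2 j` and all levels `M`, of the number of the orbits of the rational characters
under the units modulo `M` (every orbit has `φ(M)` elements). -/
noncomputable def rankP (nn mm : Fin r → ℕ) (j : ℕ) : ℕ :=
  ∑ c ∈ Finset.univ.filter (fun c : Sy nn => dg c = 2 * j), ∑ M ∈ (Finset.univ.lcm mm).divisors,
    Nat.card {a : Ent nn (pr c) → ZMod M // IsChar nn mm (pr c) a ∧ IsRat a} / M.totient

end Run7.h365.PF
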